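import Mathlib

/-!
Derrida–Retaux recursion with `m = 2`: a critical heavy tailed law.
-/

set_option autoImplicit false
open Filter Topology Finset

namespace Run7.h240.DR

/-- one step of the recursion for `m = 2`, in the form used by the statement. -/
noncomputable def step (p : ℕ → ℝ) (k : ℕ) : ℝ :=
  (∑ x : Fin 2 → Fin (k + 2),
      if (∑ i, (x i : ℕ)) = k + 1 then ∏ i, p (x i) else 0)
    + (if k = 0 then p 0 ^ 2 else 0)

/-- the target map `(i,j) ↦ i + j - 1` (truncated). -/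
def tgt (x : ℕ × ℕ) : ℕ := x.1 + x.2 - 1

lemma sum_fin_two (p : ℕ → ℝ) (k : ℕ) :
    (∑ x : Fin 2 → Fin (k + 2),
      if (∑ i, (x i : ℕ)) = k + 1 then ∏ i, p (x i) else 0)
      = ∑ x ∈ antidiagonal (k + 1), p x.1 * p x.2 := by
  classical
  have h1 : (∑ x : Fin 2 → Fin (k + 2),
      if (∑ i, (x i : ℕ)) = k + 1 then ∏ i, p (x i) else 0)
      = ∑ y : Fin (k + 2) × Fin (k + 2),
        if (y.1 : ℕ) + (y.2 : ℕ) = k + 1 then p y.1 * p y.2 else 0 := by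
    refine Fintype.sum_equiv (finTwoArrowEquiv (Fin (k + 2))) _ _ ?_
    intro x
    simp [Fin.sum_univ_two, Fin.prod_univ_two, finTwoArrowEquiv]
  rw [h1, ← Finset.sum_filter]
  refine Finset.sum_bij (fun y _ => ((y.1 : ℕ), (y.2 : ℕ))) ?_ ?_ ?_ ?_
  · intro y hy
    simpa using hy
  · intro y _ z _ h
    simp only [Prod.mk.injEq] at h
    exact Prod.ext (Fin.ext h.1) (Fin.ext h.2)
  · intro z hz
    have hz' : z.1 + z.2 = k + 1 := by simpa using hz
    refine ⟨(⟨z.1, by omega⟩, ⟨z.2, by omega⟩), ?_, ?_⟩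
    · simp [hz']
    · simp
  · intro y _
    rfl

lemma step_eq (p : ℕ → ℝ) (k : ℕ) :
    step p k = ∑ x ∈ antidiagonal (k + 1), p x.1 * p x.2 + (if k = 0 then p 0 ^ 2 else 0) := by
  rw [step, sum_fin_two]

/-- fibre of `tgt`. -/
def fib (k : ℕ) : Finset (ℕ × ℕ) :=
  if k = 0 then insert (0, 0) (antidiagonal 1) else antidiagonal (k + 1)

lemma mem_fib (k : ℕ) (x : ℕ × ℕ) : x ∈ fib k ↔ tgt x = k := by
  unfold fib tgt
  obtain ⟨i, j⟩ := x
  split_ifs with h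
  · subst h
    simp only [mem_insert, Prod.mk.injEq, HasAntidiagonal.mem_antidiagonal]
    omega
  · simp only [HasAntidiagonal.mem_antidiagonal]
    omega

lemma sum_fib (p : ℕ → ℝ) (k : ℕ) :
    ∑ x ∈ fib k, p x.1 * p x.2 = step p k := by
  rw [step_eq]
  unfold fib
  split_ifs with h
  · subst h
    rw [Finset.sum_insert]
    · simp only [zero_add]
      ring
    · simp
  · simp

/-- transfer of expectations under one step. -/
lemma hasSum_step (p : ℕ → ℝ) (g : ℕ → ℝ)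
    (hs : Summable (fun x : ℕ × ℕ => p x.1 * p x.2 * g (tgt x))) :
    HasSum (fun k => step p k * g k) (∑' x : ℕ × ℕ, p x.1 * p x.2 * g (tgt x)) := by
  have h1 := hs.hasSum
  rw [← (Equiv.sigmaFiberEquiv tgt).hasSum_iff] at h1
  refine h1.sigma ?_
  intro k
  have : ∀ c : {x // tgt x = k}, ((fun x : ℕ × ℕ => p x.1 * p x.2 * g (tgt x)) ∘
      (Equiv.sigmaFiberEquiv tgt)) ⟨k, c⟩ = p c.1.1 * p c.1.2 * g k := by
    intro c
    simp only [Function.comp, Equiv.sigmaFiberEquiv, Equiv.coe_fn_mk]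
    rw [c.2]
  simp_rw [this]
  have h2 : step p k * g k = ∑ x ∈ fib k, p x.1 * p x.2 * g k := by
    rw [← sum_fib, Finset.sum_mul]
  rw [h2]
  have h3 : HasSum ((fun x : ℕ × ℕ => p x.1 * p x.2 * g k) ∘ ((↑) : (↑(fib k) : Set (ℕ × ℕ)) → ℕ × ℕ))
      (∑ x ∈ fib k, p x.1 * p x.2 * g k) := (fib k).hasSum _
  let e : {x // tgt x = k} ≃ (↑(fib k) : Set (ℕ × ℕ)) :=
    Equiv.subtypeEquivRight (fun x => by simp [mem_fib])
  exact (e.hasSum_iff (f := (fun x : ℕ × ℕ => p x.1 * p x.2 * g k) ∘ ((↑) : (↑(fib k) : Set (ℕ × ℕ)) → ℕ × ℕ))).2 h3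

/-- A law with the critical relation. `S1`, `S2` are the weighted sums. -/
structure Crit (p : ℕ → ℝ) : Prop where
  nonneg : ∀ k, 0 ≤ p k
  one : HasSum p 1
  sm : Summable (fun k => p k * 2 ^ k)
  smk : Summable (fun k : ℕ => (k : ℝ) * (p k * 2 ^ k))
  crit : ∑' k : ℕ, (k : ℝ) * (p k * 2 ^ k) = ∑' k, p k * 2 ^ k

/-- generating function -/
noncomputable def F (p : ℕ → ℝ) (s : ℝ) : ℝ := ∑' k, p k * s ^ k

lemma Crit.summ {p : ℕ → ℝ} (h : Crit p) {s : ℝ} (hs0 : 0 ≤ s) (hs2 : s ≤ 2) :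
    Summable (fun k => p k * s ^ k) := by
  refine Summable.of_nonneg_of_le (fun k => mul_nonneg (h.nonneg k) (pow_nonneg hs0 k)) ?_ h.sm
  intro k
  exact mul_le_mul_of_nonneg_left (pow_le_pow_left₀ hs0 hs2 k) (h.nonneg k)

lemma summ_prod {a b : ℕ → ℝ} (ha : Summable a) (hb : Summable b)
    (ha0 : ∀ k, 0 ≤ a k) (hb0 : ∀ k, 0 ≤ b k) :
    Summable (fun x : ℕ × ℕ => a x.1 * b x.2) :=
  ha.mul_of_nonneg hb ha0 hb0

lemma tsum_prod_mul {a b : ℕ → ℝ} (ha : Summable a) (hb : Summable b)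
    (ha0 : ∀ k, 0 ≤ a k) (hb0 : ∀ k, 0 ≤ b k) :
    ∑' x : ℕ × ℕ, a x.1 * b x.2 = (∑' k, a k) * ∑' k, b k :=
  (ha.tsum_mul_tsum hb (summ_prod ha hb ha0 hb0)).symm

lemma hasSum_prod_mul {a b : ℕ → ℝ} (ha : Summable a) (hb : Summable b)
    (ha0 : ∀ k, 0 ≤ a k) (hb0 : ∀ k, 0 ≤ b k) :
    HasSum (fun x : ℕ × ℕ => a x.1 * b x.2) ((∑' k, a k) * ∑' k, b k) := by
  rw [← tsum_prod_mul ha hb ha0 hb0]
  exact (summ_prod ha hb ha0 hb0).hasSum

/-- a point mass at `(0,0)` -/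
lemma hasSum_pt (c : ℝ) : HasSum (fun x : ℕ × ℕ => if x = (0, 0) then c else 0) c :=
  hasSum_ite_eq (0, 0) c

lemma hasSum_gen {p : ℕ → ℝ} (h : Crit p) {s : ℝ} (hs0 : 0 < s) (hs2 : s ≤ 2) :
    HasSum (fun k => step p k * s ^ k) ((F p s ^ 2 + (s - 1) * p 0 ^ 2) / s) := by
  have hsm := h.summ hs0.le hs2
  have hn : ∀ k, 0 ≤ p k * s ^ k := fun k => mul_nonneg (h.nonneg k) (pow_nonneg hs0.le k)
  have h1 := hasSum_prod_mul hsm hsm hn hn
  have h2 := (h1.add (hasSum_pt ((s - 1) * p 0 ^ 2))).div_const s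
  have h3 : (fun x : ℕ × ℕ => (p x.1 * s ^ x.1 * (p x.2 * s ^ x.2) +
      if x = (0, 0) then (s - 1) * p 0 ^ 2 else 0) / s)
      = fun x : ℕ × ℕ => p x.1 * p x.2 * s ^ (tgt x) := by
    funext x
    obtain ⟨i, j⟩ := x
    by_cases h0 : (i, j) = ((0, 0) : ℕ × ℕ)
    · obtain ⟨hi, hj⟩ := Prod.mk.inj h0
      subst hi; subst hj
      simp only [tgt, if_true, pow_zero, mul_one, add_zero]
      have : (0 : ℕ) - 1 = 0 := rfl
      rw [this]
      field_simp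
      ring
    · rw [if_neg h0]
      have h4 : i + j = tgt (i, j) + 1 := by
        simp only [tgt]
        have : ¬ (i = 0 ∧ j = 0) := by simpa using h0
        omega
      have h5 : s ^ i * s ^ j = s ^ (tgt (i, j)) * s := by
        rw [← pow_add, h4, pow_succ]
      simp only [add_zero]
      rw [div_eq_iff hs0.ne']
      calc p i * s ^ i * (p j * s ^ j) = p i * p j * (s ^ i * s ^ j) := by ring
        _ = _ := by rw [h5]; ring
  rw [h3] at h2
  have h6 := hasSum_step p (fun k => s ^ k) h2.summable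
  rw [h2.tsum_eq] at h6
  have h7 : F p s ^ 2 = (∑' k, p k * s ^ k) * ∑' k, p k * s ^ k := by
    rw [F]; ring
  rw [h7]
  exact h6

lemma hasSum_first {p : ℕ → ℝ} (h : Crit p) :
    HasSum (fun k : ℕ => step p k * ((k : ℝ) * 2 ^ k)) ((F p 2 ^ 2 + p 0 ^ 2) / 2) := by
  have hn : ∀ k, 0 ≤ p k * 2 ^ k := fun k => mul_nonneg (h.nonneg k) (by positivity)
  have hnk : ∀ k : ℕ, 0 ≤ (k : ℝ) * (p k * 2 ^ k) := fun k => mul_nonneg (by positivity) (hn k)
  have h1 := hasSum_prod_mul h.smk h.sm hnk hn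
  have h1' := hasSum_prod_mul h.sm h.smk hn hnk
  have h1'' := hasSum_prod_mul h.sm h.sm hn hn
  have h2 := (((h1.add h1').sub h1'').add (hasSum_pt (p 0 ^ 2))).div_const 2
  have h3 : (fun x : ℕ × ℕ => (((x.1 : ℝ) * (p x.1 * 2 ^ x.1) * (p x.2 * 2 ^ x.2) +
      p x.1 * 2 ^ x.1 * ((x.2 : ℝ) * (p x.2 * 2 ^ x.2)) -
      p x.1 * 2 ^ x.1 * (p x.2 * 2 ^ x.2)) +
      if x = (0, 0) then p 0 ^ 2 else 0) / 2)
      = fun x : ℕ × ℕ => p x.1 * p x.2 * ((tgt x : ℝ) * 2 ^ (tgt x)) := by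
    funext x
    obtain ⟨i, j⟩ := x
    by_cases h0 : (i, j) = ((0, 0) : ℕ × ℕ)
    · obtain ⟨hi, hj⟩ := Prod.mk.inj h0
      subst hi; subst hj
      simp only [tgt, if_true, pow_zero, mul_one, add_zero]
      have : (0 : ℕ) - 1 = 0 := rfl
      rw [this]
      push_cast
      ring
    · rw [if_neg h0]
      have h4 : i + j = tgt (i, j) + 1 := by
        simp only [tgt]
        have : ¬ (i = 0 ∧ j = 0) := by simpa using h0
        omega
      have h5 : (2 : ℝ) ^ i * 2 ^ j = 2 ^ (tgt (i, j)) * 2 := by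
        rw [← pow_add, h4, pow_succ]
      have h6 : (tgt (i, j) : ℝ) = i + j - 1 := by
        have : ((i + j : ℕ) : ℝ) = ((tgt (i, j) + 1 : ℕ) : ℝ) := by rw [h4]
        push_cast at this
        linarith
      simp only [add_zero]
      rw [div_eq_iff (by norm_num : (2 : ℝ) ≠ 0), h6]
      calc _ = p i * p j * ((i : ℝ) + j - 1) * (2 ^ i * 2 ^ j) := by ring
        _ = _ := by rw [h5]; ring
  rw [h3] at h2
  have h6 := hasSum_step p (fun k : ℕ => (k : ℝ) * 2 ^ k) h2.summable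
  rw [h2.tsum_eq] at h6
  have h7 : ((F p 2 ^ 2 + p 0 ^ 2) / 2) = (((∑' k : ℕ, (k : ℝ) * (p k * 2 ^ k)) * (∑' k : ℕ, p k * 2 ^ k) +
      (∑' k : ℕ, p k * 2 ^ k) * (∑' k : ℕ, (k : ℝ) * (p k * 2 ^ k)) -
      (∑' k : ℕ, p k * 2 ^ k) * (∑' k : ℕ, p k * 2 ^ k)) + p 0 ^ 2) / 2 := by
    rw [h.crit, F]; ring
  rw [h7]
  exact h6

lemma F_one {p : ℕ → ℝ} (h : Crit p) : F p 1 = 1 := by
  simp [F, h.one.tsum_eq]

lemma Crit.step {p : ℕ → ℝ} (h : Crit p) : Crit (step p) := by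
  have hg2 := hasSum_gen h (s := 2) (by norm_num) le_rfl
  have hg1 := hasSum_gen h (s := 1) (by norm_num) (by norm_num)
  have hf := hasSum_first h
  have hf' : HasSum (fun k : ℕ => (k : ℝ) * (DR.step p k * 2 ^ k)) ((F p 2 ^ 2 + p 0 ^ 2) / 2) := by
    have : (fun k : ℕ => (k : ℝ) * (DR.step p k * 2 ^ k)) =
        fun k : ℕ => DR.step p k * ((k : ℝ) * 2 ^ k) := by
      funext k; ring
    rw [this]; exact hf
  refine ⟨?_, ?_, hg2.summable, hf'.summable, ?_⟩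
  · intro k
    rw [step_eq]
    refine add_nonneg (Finset.sum_nonneg fun x _ => mul_nonneg (h.nonneg _) (h.nonneg _)) ?_
    split_ifs
    · positivity
    · exact le_rfl
  · have : (fun k => DR.step p k * 1 ^ k) = DR.step p := by funext k; simp
    rw [this, F_one h] at hg1
    simpa using hg1
  · rw [hf'.tsum_eq, hg2.tsum_eq]
    ring

/-- tail functional -/
noncomputable def T (p : ℕ → ℝ) (l : ℕ) : ℝ := ∑' k : ℕ, ((k - l : ℕ) : ℝ) * (p k * 2 ^ k)

lemma Crit.summT {p : ℕ → ℝ} (h : Crit p) (l : ℕ) :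
    Summable (fun k : ℕ => ((k - l : ℕ) : ℝ) * (p k * 2 ^ k)) := by
  refine Summable.of_nonneg_of_le (fun k => mul_nonneg (by positivity)
    (mul_nonneg (h.nonneg k) (by positivity))) ?_ h.smk
  intro k
  refine mul_le_mul_of_nonneg_right ?_ (mul_nonneg (h.nonneg k) (by positivity))
  exact_mod_cast Nat.sub_le k l

lemma T_step {p : ℕ → ℝ} (h : Crit p) (l : ℕ) : F p 2 * T p (l + 1) ≤ T (step p) l := by
  have hn : ∀ k, 0 ≤ p k * 2 ^ k := fun k => mul_nonneg (h.nonneg k) (by positivity)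
  have hnl : ∀ k : ℕ, 0 ≤ ((k - (l + 1) : ℕ) : ℝ) * (p k * 2 ^ k) :=
    fun k => mul_nonneg (by positivity) (hn k)
  have h1 := hasSum_prod_mul (h.summT (l + 1)) h.sm hnl hn
  have h1' := hasSum_prod_mul h.sm (h.summT (l + 1)) hn hnl
  have h2 := (h1.add h1').div_const 2
  -- summability of the pair sum for `g`
  have hstep := h.step
  have hpos : ∀ x : ℕ × ℕ, 0 ≤ p x.1 * p x.2 := fun x => mul_nonneg (h.nonneg _) (h.nonneg _)
  have hk2 : Summable (fun x : ℕ × ℕ => p x.1 * p x.2 * ((tgt x : ℝ) * 2 ^ (tgt x))) := by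
    -- dominated by (i + j) 2^i 2^j
    have hnk : ∀ k : ℕ, 0 ≤ (k : ℝ) * (p k * 2 ^ k) := fun k => mul_nonneg (by positivity) (hn k)
    have a1 := (summ_prod h.smk h.sm hnk hn).add (summ_prod h.sm h.smk hn hnk)
    refine Summable.of_nonneg_of_le (fun x => mul_nonneg (hpos x) (by positivity)) ?_ a1
    intro x
    have b1 : (tgt x : ℝ) ≤ (x.1 : ℝ) + x.2 := by
      have : tgt x ≤ x.1 + x.2 := Nat.sub_le _ _
      exact_mod_cast this
    have b2 : (2 : ℝ) ^ (tgt x) ≤ 2 ^ x.1 * 2 ^ x.2 := by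
      rw [← pow_add]
      exact pow_le_pow_right₀ (by norm_num) (Nat.sub_le _ _)
    calc p x.1 * p x.2 * ((tgt x : ℝ) * 2 ^ (tgt x))
        ≤ p x.1 * p x.2 * (((x.1 : ℝ) + x.2) * (2 ^ x.1 * 2 ^ x.2)) := by
          refine mul_le_mul_of_nonneg_left ?_ (hpos x)
          exact mul_le_mul b1 b2 (by positivity) (by positivity)
      _ = _ := by ring
  have hkl : Summable (fun x : ℕ × ℕ => p x.1 * p x.2 * (((tgt x - l : ℕ) : ℝ) * 2 ^ (tgt x))) := by
    refine Summable.of_nonneg_of_le (fun x => mul_nonneg (hpos x) (by positivity)) ?_ hk2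
    intro x
    refine mul_le_mul_of_nonneg_left ?_ (hpos x)
    refine mul_le_mul_of_nonneg_right ?_ (by positivity)
    exact_mod_cast Nat.sub_le _ _
  have h6 := hasSum_step p (fun k : ℕ => ((k - l : ℕ) : ℝ) * 2 ^ k) hkl
  have h7 : T (step p) l = ∑' x : ℕ × ℕ, p x.1 * p x.2 * (((tgt x - l : ℕ) : ℝ) * 2 ^ (tgt x)) := by
    rw [← h6.tsum_eq, T]
    congr 1
    funext k
    ring
  rw [h7]
  have h8 : F p 2 * T p (l + 1) = ((∑' k : ℕ, ((k - (l + 1) : ℕ) : ℝ) * (p k * 2 ^ k)) * (∑' k, p k * 2 ^ k)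
      + (∑' k, p k * 2 ^ k) * (∑' k : ℕ, ((k - (l + 1) : ℕ) : ℝ) * (p k * 2 ^ k))) / 2 := by
    rw [F, T]; ring
  rw [h8, ← h2.tsum_eq]
  refine Summable.tsum_le_tsum ?_ h2.summable hkl
  intro x
  obtain ⟨i, j⟩ := x
  by_cases h0 : (i, j) = ((0, 0) : ℕ × ℕ)
  · obtain ⟨hi, hj⟩ := Prod.mk.inj h0
    subst hi; subst hj
    simp [tgt]
  · have h4 : i + j = tgt (i, j) + 1 := by
      simp only [tgt]
      have : ¬ (i = 0 ∧ j = 0) := by simpa using h0
      omega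
    have h5 : (2 : ℝ) ^ i * 2 ^ j = 2 ^ (tgt (i, j)) * 2 := by
      rw [← pow_add, h4, pow_succ]
    have h9 : ((i - (l + 1) : ℕ) : ℝ) + ((j - (l + 1) : ℕ) : ℝ) ≤ ((tgt (i, j) - l : ℕ) : ℝ) := by
      have : (i - (l + 1)) + (j - (l + 1)) ≤ tgt (i, j) - l := by omega
      exact_mod_cast this
    have h10 : 0 ≤ p i * p j * 2 ^ (tgt (i, j)) := mul_nonneg (hpos (i, j)) (by positivity)
    simp only
    calc (((i - (l + 1) : ℕ) : ℝ) * (p i * 2 ^ i) * (p j * 2 ^ j) +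
          p i * 2 ^ i * (((j - (l + 1) : ℕ) : ℝ) * (p j * 2 ^ j))) / 2
        = (((i - (l + 1) : ℕ) : ℝ) + ((j - (l + 1) : ℕ) : ℝ)) * (p i * p j) * (2 ^ i * 2 ^ j) / 2 := by
          ring
      _ = (((i - (l + 1) : ℕ) : ℝ) + ((j - (l + 1) : ℕ) : ℝ)) * (p i * p j * 2 ^ (tgt (i, j))) := by
          rw [h5]; ring
      _ ≤ ((tgt (i, j) - l : ℕ) : ℝ) * (p i * p j * 2 ^ (tgt (i, j))) :=
          mul_le_mul_of_nonneg_right h9 h10
      _ = _ := by ring

lemma F_le_aux {p : ℕ → ℝ} (h : Crit p) (k : ℕ) :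
    p k * 2 ^ k ≤ (k : ℝ) * (p k * 2 ^ k) - p k * 2 ^ k + 2 * p k := by
  rcases Nat.lt_or_ge k 2 with hk | hk
  · interval_cases k
    · simp; linarith [h.nonneg 0]
    · have := h.nonneg 1
      norm_num
      linarith
  · have hk' : (2 : ℝ) ≤ k := by exact_mod_cast hk
    have h3 : 0 ≤ p k * 2 ^ k := mul_nonneg (h.nonneg k) (by positivity)
    have h4 := h.nonneg k
    nlinarith

lemma F_le_two {p : ℕ → ℝ} (h : Crit p) : F p 2 ≤ 2 := by
  have h1 : Summable (fun k : ℕ => (k : ℝ) * (p k * 2 ^ k) - p k * 2 ^ k + 2 * p k) :=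
    (h.smk.sub h.sm).add (h.one.summable.mul_left 2)
  have h2 : ∑' k : ℕ, ((k : ℝ) * (p k * 2 ^ k) - p k * 2 ^ k + 2 * p k) = 2 := by
    rw [Summable.tsum_add (h.smk.sub h.sm) (h.one.summable.mul_left 2),
      Summable.tsum_sub h.smk h.sm, h.crit, tsum_mul_left, h.one.tsum_eq]
    ring
  have h0 : F p 2 ≤ ∑' k : ℕ, ((k : ℝ) * (p k * 2 ^ k) - p k * 2 ^ k + 2 * p k) := by
    rw [F]
    refine Summable.tsum_le_tsum ?_ h.sm h1
    intro k
    exact F_le_aux h k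
  rw [h2] at h0
  exact h0

lemma one_le_F {p : ℕ → ℝ} (h : Crit p) : 1 ≤ F p 2 := by
  rw [← h.one.tsum_eq, F]
  refine Summable.tsum_le_tsum ?_ h.one.summable h.sm
  intro k
  have : (1 : ℝ) ≤ 2 ^ k := one_le_pow₀ (by norm_num)
  nlinarith [h.nonneg k]

/-- the iterates -/
noncomputable def it (p : ℕ → ℝ) : ℕ → ℕ → ℝ
  | 0 => p
  | n + 1 => step (it p n)

lemma it_crit {p : ℕ → ℝ} (h : Crit p) : ∀ n, Crit (it p n)
  | 0 => h
  | n + 1 => (it_crit h n).step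

lemma T_zero_eq {p : ℕ → ℝ} (h : Crit p) : T p 0 = F p 2 := by
  rw [T, F, ← h.crit]
  simp

lemma prod_le {p : ℕ → ℝ} (h : Crit p) :
    ∀ n l, (∏ i ∈ range n, F (it p i) 2) * T p (n + l) ≤ T (it p n) l := by
  intro n
  induction n with
  | zero => intro l; simp [it]
  | succ n ih =>
    intro l
    have h1 := ih (l + 1)
    have h2 := T_step (it_crit h n) l
    have h3 := one_le_F (it_crit h n)
    rw [Finset.prod_range_succ]
    have h4 : n + 1 + l = n + (l + 1) := by ring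
    rw [h4]
    calc (∏ i ∈ range n, F (it p i) 2) * F (it p n) 2 * T p (n + (l + 1))
        = F (it p n) 2 * ((∏ i ∈ range n, F (it p i) 2) * T p (n + (l + 1))) := by ring
      _ ≤ F (it p n) 2 * T (it p n) (l + 1) :=
          mul_le_mul_of_nonneg_left h1 (by linarith)
      _ ≤ _ := h2

lemma prod_mul_tail_le_two {p : ℕ → ℝ} (h : Crit p) (n : ℕ) :
    (∏ i ∈ range n, F (it p i) 2) * T p n ≤ 2 := by
  have h1 := prod_le h n 0
  rw [add_zero, T_zero_eq (it_crit h n)] at h1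
  exact h1.trans (F_le_two (it_crit h n))

end Run7.h240.DR
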