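import Pool.Agent.Run7.h240.DR

/-!
The heavy tailed critical law `P(X = k) = c 2^{-k} k^{-3}` and the Riccati argument.
-/

set_option autoImplicit false
open Filter Topology Finset

namespace Run7.h240.DR

/-- `∑ 1/k^2` -/
noncomputable def cA : ℝ := ∑' k : ℕ, 1 / (k : ℝ) ^ 2
/-- `∑ 1/k^3` -/
noncomputable def cB : ℝ := ∑' k : ℕ, 1 / (k : ℝ) ^ 3

lemma hasA : HasSum (fun k : ℕ => 1 / (k : ℝ) ^ 2) cA :=
  (Real.summable_one_div_nat_pow.2 (by norm_num)).hasSum

lemma hasB : HasSum (fun k : ℕ => 1 / (k : ℝ) ^ 3) cB :=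
  (Real.summable_one_div_nat_pow.2 (by norm_num)).hasSum

lemma B_lt_A : cB < cA := by
  refine Summable.tsum_lt_tsum (i := 2) ?_ ?_ hasB.summable hasA.summable
  · intro k
    rcases Nat.eq_zero_or_pos k with h | h
    · subst h; simp
    · have h1 : (1 : ℝ) ≤ k := by exact_mod_cast h
      refine one_div_le_one_div_of_le (by positivity) ?_
      exact pow_le_pow_right₀ h1 (by norm_num)
  · norm_num

/-- unnormalised weights -/
noncomputable def W (k : ℕ) : ℝ := if k = 0 then cA - cB else 1 / (k : ℝ) ^ 3 / 2 ^ k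

lemma W_nonneg (k : ℕ) : 0 ≤ W k := by
  unfold W
  split_ifs
  · linarith [B_lt_A]
  · positivity

lemma W_two (k : ℕ) : W k * 2 ^ k = 1 / (k : ℝ) ^ 3 + if k = 0 then cA - cB else 0 := by
  unfold W
  split_ifs with h
  · subst h; simp
  · rw [add_zero, div_mul_cancel₀]
    positivity

lemma hasW2 : HasSum (fun k => W k * 2 ^ k) cA := by
  have h := hasB.add (hasSum_ite_eq 0 (cA - cB))
  have h1 : cB + (cA - cB) = cA := by ring
  rw [h1] at h
  convert h using 1
  funext k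
  rw [W_two]

lemma hasWk2 : HasSum (fun k : ℕ => (k : ℝ) * (W k * 2 ^ k)) cA := by
  convert hasA using 1
  funext k
  rw [W_two]
  rcases Nat.eq_zero_or_pos k with h | h
  · subst h; simp
  · have h1 : (k : ℝ) ≠ 0 := by positivity
    rw [if_neg h.ne', add_zero]
    field_simp

lemma summW : Summable W := by
  refine Summable.of_nonneg_of_le W_nonneg ?_ hasW2.summable
  intro k
  have : (1 : ℝ) ≤ 2 ^ k := one_le_pow₀ (by norm_num)
  nlinarith [W_nonneg k]

/-- normalising constant -/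
noncomputable def Z : ℝ := ∑' k, W k

lemma W_zero_pos : 0 < W 0 := by
  simp only [W, if_true]
  linarith [B_lt_A]

lemma Z_pos : 0 < Z :=
  summW.tsum_pos W_nonneg 0 W_zero_pos

/-- the law -/
noncomputable def p0 (k : ℕ) : ℝ := W k / Z

lemma p0_crit : Crit p0 := by
  have e1 : (fun k => p0 k * 2 ^ k) = fun k => (W k * 2 ^ k) / Z := by
    funext k; simp only [p0]; ring
  have e2 : (fun k : ℕ => (k : ℝ) * (p0 k * 2 ^ k)) = fun k : ℕ => ((k : ℝ) * (W k * 2 ^ k)) / Z := by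
    funext k; simp only [p0]; ring
  have h1 : HasSum (fun k => p0 k * 2 ^ k) (cA / Z) := by rw [e1]; exact hasW2.div_const Z
  have h2 : HasSum (fun k : ℕ => (k : ℝ) * (p0 k * 2 ^ k)) (cA / Z) := by
    rw [e2]; exact hasWk2.div_const Z
  refine ⟨fun k => div_nonneg (W_nonneg k) Z_pos.le, ?_, h1.summable, h2.summable, ?_⟩
  · have := summW.hasSum.div_const Z
    rw [show (∑' k, W k) / Z = 1 from div_self Z_pos.ne'] at this
    exact this
  · rw [h1.tsum_eq, h2.tsum_eq]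

lemma p0_zero_pos : 0 < p0 0 := div_pos W_zero_pos Z_pos

lemma tail_lower (n : ℕ) : 1 / (32 * Z * (n + 1)) ≤ T p0 n := by
  have h0 : ∀ k : ℕ, 0 ≤ ((k - n : ℕ) : ℝ) * (p0 k * 2 ^ k) := fun k =>
    mul_nonneg (by positivity) (mul_nonneg (p0_crit.nonneg k) (by positivity))
  have h1 : ∑ k ∈ Finset.Icc (2 * n + 1) (4 * n + 2), ((k - n : ℕ) : ℝ) * (p0 k * 2 ^ k) ≤ T p0 n :=
    (p0_crit.summT n).sum_le_tsum _ (fun k _ => h0 k)
  refine le_trans ?_ h1
  have h2 : ∀ k ∈ Finset.Icc (2 * n + 1) (4 * n + 2),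
      1 / (64 * Z * ((n : ℝ) + 1) ^ 2) ≤ ((k - n : ℕ) : ℝ) * (p0 k * 2 ^ k) := by
    intro k hk
    rw [Finset.mem_Icc] at hk
    have hk0 : k ≠ 0 := by omega
    have e1 : p0 k * 2 ^ k = (1 / (k : ℝ) ^ 3) / Z := by
      have := W_two k
      rw [if_neg hk0, add_zero] at this
      rw [← this, p0]; ring
    rw [e1]
    have hkn : ((n : ℝ) + 1) ≤ ((k - n : ℕ) : ℝ) := by
      have : n + 1 ≤ k - n := by omega
      exact_mod_cast this
    have hk4 : (k : ℝ) ≤ 4 * ((n : ℝ) + 1) := by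
      have : k ≤ 4 * (n + 1) := by omega
      exact_mod_cast this
    have hkp : (0 : ℝ) < k := by positivity
    have hn : (0 : ℝ) < (n : ℝ) + 1 := by positivity
    have h3 : 1 / (4 * ((n : ℝ) + 1)) ^ 3 ≤ 1 / (k : ℝ) ^ 3 :=
      one_div_le_one_div_of_le (by positivity) (pow_le_pow_left₀ hkp.le hk4 3)
    have hZ := Z_pos
    calc 1 / (64 * Z * ((n : ℝ) + 1) ^ 2)
        = ((n : ℝ) + 1) * (1 / (4 * ((n : ℝ) + 1)) ^ 3 / Z) := by
          field_simp
          norm_num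
      _ ≤ ((k - n : ℕ) : ℝ) * (1 / (k : ℝ) ^ 3 / Z) := by
          refine mul_le_mul hkn ?_ (by positivity) (by positivity)
          exact div_le_div_of_nonneg_right h3 hZ.le
  have h3 := Finset.card_nsmul_le_sum _ _ _ h2
  refine le_trans ?_ h3
  have h4 : (Finset.Icc (2 * n + 1) (4 * n + 2)).card = 2 * n + 2 := by
    rw [Nat.card_Icc]; omega
  rw [h4, nsmul_eq_mul]
  have hZ := Z_pos
  have hn : (0 : ℝ) < (n : ℝ) + 1 := by positivity
  apply le_of_eq
  push_cast
  field_simp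
  norm_num

lemma prod_upper (n : ℕ) : (∏ i ∈ range n, F (it p0 i) 2) ≤ 64 * Z * ((n : ℝ) + 1) := by
  have h1 := prod_mul_tail_le_two p0_crit n
  have h2 := tail_lower n
  have hZ := Z_pos
  have hn : (0 : ℝ) < (n : ℝ) + 1 := by positivity
  have h3 : 0 ≤ ∏ i ∈ range n, F (it p0 i) 2 :=
    Finset.prod_nonneg fun i _ => by linarith [one_le_F (it_crit p0_crit i)]
  have h4 : (∏ i ∈ range n, F (it p0 i) 2) * (1 / (32 * Z * ((n : ℝ) + 1))) ≤ 2 :=
    (mul_le_mul_of_nonneg_left h2 h3).trans h1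
  rw [mul_one_div, div_le_iff₀ (by positivity)] at h4
  linarith

/-- partial sums of the harmonic series shifted by `N` are unbounded. -/
lemma harm (N : ℕ) (hN : 1 ≤ N) (C : ℝ) :
    ∃ j : ℕ, C < ∑ i ∈ range j, 1 / ((N : ℝ) + i) := by
  have h := Real.tendsto_sum_range_one_div_nat_succ_atTop
  obtain ⟨j, hj⟩ := (h.eventually_gt_atTop (C * N)).exists
  refine ⟨j, ?_⟩
  have hN' : (0 : ℝ) < N := by positivity
  have h1 : (∑ i ∈ range j, 1 / ((i : ℝ) + 1)) / N ≤ ∑ i ∈ range j, 1 / ((N : ℝ) + i) := by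
    rw [Finset.sum_div]
    refine Finset.sum_le_sum fun i _ => ?_
    rw [div_div]
    refine one_div_le_one_div_of_le (by positivity) ?_
    have : (1 : ℝ) ≤ N := by exact_mod_cast hN
    have hi : (0 : ℝ) ≤ i := by positivity
    nlinarith
  refine lt_of_lt_of_le ?_ h1
  rw [lt_div_iff₀ hN']
  exact hj

lemma analysis (a d : ℕ → ℝ) (ha : ∀ n, 0 ≤ a n)
    (hrec : ∀ n, a (n + 1) = a n + (a n) ^ 2 / 2 - d n)
    (hd : ∀ᶠ n : ℕ in atTop, 7 / 2 ≤ (n : ℝ) ^ 2 * d n) (K : ℝ)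
    (hP : ∀ n : ℕ, ∏ i ∈ range n, (1 + a i) ≤ K * ((n : ℝ) + 1)) : False := by
  obtain ⟨N0, hN0⟩ := eventually_atTop.1 hd
  set N := max N0 1 with hNdef
  have hN1 : 1 ≤ N := le_max_right _ _
  have hd' : ∀ n, N ≤ n → 7 / 2 ≤ (n : ℝ) ^ 2 * d n := fun n hn =>
    hN0 n (le_trans (le_max_left _ _) hn)
  -- one step
  have hstep : ∀ n : ℕ, N ≤ n → (n : ℝ) * a n < 3 / 2 →
      ((n + 1 : ℕ) : ℝ) * a (n + 1) ≤ n * a n - (7 / 8) * (1 / n) := by
    intro n hn hc
    have hn0 : (0 : ℝ) < n := by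
      have : 0 < n := by omega
      exact_mod_cast this
    have h1 := hd' n hn
    have h2 : a n = (n * a n) / n := by field_simp
    set c := (n : ℝ) * a n with hcdef
    have hc0 : 0 ≤ c := mul_nonneg hn0.le (ha n)
    have h3 : 7 / 2 / (n : ℝ) ^ 2 ≤ d n := by
      rw [div_le_iff₀ (by positivity)]; linarith
    rw [hrec n]
    have h4 : ((n + 1 : ℕ) : ℝ) * (a n + a n ^ 2 / 2 - d n) ≤
        ((n : ℝ) + 1) * (c / n + (c / n) ^ 2 / 2 - 7 / 2 / (n : ℝ) ^ 2) := by
      push_cast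
      rw [← h2]
      refine mul_le_mul_of_nonneg_left ?_ (by positivity)
      linarith
    refine h4.trans ?_
    have h5 : ((n : ℝ) + 1) * (c / n + (c / n) ^ 2 / 2 - 7 / 2 / (n : ℝ) ^ 2)
        = c + (1 / n) * (c + (1 + 1 / n) * (c ^ 2 / 2 - 7 / 2)) := by
      field_simp
      ring
    rw [h5]
    have h6 : c ^ 2 / 2 - 7 / 2 ≤ -19 / 8 := by nlinarith
    have h7 : (1 + 1 / (n : ℝ)) * (c ^ 2 / 2 - 7 / 2) ≤ -19 / 8 := by
      have : (0 : ℝ) < 1 / n := by positivity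
      nlinarith
    have h8 : c + (1 + 1 / (n : ℝ)) * (c ^ 2 / 2 - 7 / 2) ≤ -(7 / 8) := by linarith
    have h9 : (1 / (n : ℝ)) * (c + (1 + 1 / (n : ℝ)) * (c ^ 2 / 2 - 7 / 2)) ≤ (1 / n) * (-(7 / 8)) :=
      mul_le_mul_of_nonneg_left h8 (by positivity)
    linarith
  have key : ∀ n, N ≤ n → 3 / 2 ≤ (n : ℝ) * a n := by
    intro n hn
    by_contra hlt
    push Not at hlt
    have hn1 : 1 ≤ n := le_trans hN1 hn
    have hind : ∀ j : ℕ, ((n + j : ℕ) : ℝ) * a (n + j) ≤
        n * a n - (7 / 8) * ∑ i ∈ range j, 1 / ((n : ℝ) + i) := by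
      intro j
      induction j with
      | zero => simp
      | succ j ih =>
        have h1 : ((n + j : ℕ) : ℝ) * a (n + j) < 3 / 2 := by
          have : 0 ≤ ∑ i ∈ range j, 1 / ((n : ℝ) + i) :=
            Finset.sum_nonneg fun i _ => by positivity
          linarith
        have h2 := hstep (n + j) (by omega) h1
        rw [Finset.sum_range_succ]
        have h3 : ((n + (j + 1) : ℕ) : ℝ) * a (n + (j + 1)) = ((n + j + 1 : ℕ) : ℝ) * a (n + j + 1) := by
          rw [add_assoc]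
        rw [h3]
        push_cast at h2 ⊢
        push_cast at ih
        linarith
    obtain ⟨j, hj⟩ := harm n hn1 (2 : ℝ)
    have h1 := hind j
    have h2 : 0 ≤ ((n + j : ℕ) : ℝ) * a (n + j) := mul_nonneg (by positivity) (ha _)
    linarith
  -- growth of the product
  set P : ℕ → ℝ := fun n => ∏ i ∈ range n, (1 + a i) with hPdef
  have hPpos : ∀ n, 0 < P n := fun n => Finset.prod_pos fun i _ => by linarith [ha i]
  have hPs : ∀ n, P (n + 1) = P n * (1 + a n) := fun n => by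
    simp only [hPdef]; rw [Finset.prod_range_succ]
  have hR : ∀ j : ℕ, P N / N * (1 + (1 / 2) * ∑ i ∈ range j, 1 / (((N + 1 : ℕ) : ℝ) + i)) ≤
      P (N + j) / ((N + j : ℕ) : ℝ) := by
    intro j
    induction j with
    | zero => simp
    | succ j ih =>
      have hN0 : (0 : ℝ) < N := by
        have : 0 < N := by omega
        exact_mod_cast this
      set n := N + j with hn
      have hn0 : (0 : ℝ) < (n : ℝ) := by
        have : 0 < n := by omega
        exact_mod_cast this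
      have hk := key n (by omega)
      have h2 : a n ≥ 3 / 2 / n := by
        rw [ge_iff_le, div_le_iff₀ hn0]; linarith
      have h3 : P (N + (j + 1)) / ((N + (j + 1) : ℕ) : ℝ) = P n * (1 + a n) / ((n : ℝ) + 1) := by
        rw [← add_assoc, ← hn, hPs]; push_cast; rfl
      rw [h3, Finset.sum_range_succ]
      have h4 : P n / n * (1 + 1 / (2 * ((n : ℝ) + 1))) ≤ P n * (1 + a n) / ((n : ℝ) + 1) := by
        have e1 : P n / n * (1 + 1 / (2 * ((n : ℝ) + 1))) = P n * (1 + 3 / 2 / n) / ((n : ℝ) + 1) := by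
          field_simp
          ring
        rw [e1]
        have := hPpos n
        gcongr
      refine le_trans ?_ h4
      have h5 : (((N + 1 : ℕ) : ℝ) + j) = (n : ℝ) + 1 := by
        rw [hn]; push_cast; ring
      rw [h5]
      have h6 : P N / N ≤ P n / n := by
        refine le_trans ?_ ih
        have : 0 ≤ ∑ i ∈ range j, 1 / (((N + 1 : ℕ) : ℝ) + i) :=
          Finset.sum_nonneg fun i _ => by positivity
        have h7 : 0 < P N / N := div_pos (hPpos N) hN0
        nlinarith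
      have h8 : 0 < 1 / (2 * ((n : ℝ) + 1)) := by positivity
      have e2 : (1 / ((n : ℝ) + 1)) = 2 * (1 / (2 * ((n : ℝ) + 1))) := by
        field_simp
      rw [e2]
      nlinarith
  have hN0 : (0 : ℝ) < N := by
    have : 0 < N := by omega
    exact_mod_cast this
  have hc : 0 < P N / N := div_pos (hPpos N) hN0
  obtain ⟨j, hj⟩ := harm (N + 1) (by omega) (2 * (2 * K / (P N / N)))
  have h1 := hR j
  have h2 : P (N + j) / ((N + j : ℕ) : ℝ) ≤ 2 * K := by
    have hn0 : (0 : ℝ) < ((N + j : ℕ) : ℝ) := by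
      have : 0 < N + j := by omega
      exact_mod_cast this
    have hn1 : (1 : ℝ) ≤ ((N + j : ℕ) : ℝ) := by
      have : 1 ≤ N + j := by omega
      exact_mod_cast this
    rw [div_le_iff₀ hn0]
    have h3 := hP (N + j)
    have hK : 0 ≤ K := by
      have := hP 0
      simp at this
      linarith
    refine le_trans h3 ?_
    nlinarith
  have h3 : 2 * K < P N / N * ((1 / 2) * ∑ i ∈ range j, 1 / (((N + 1 : ℕ) : ℝ) + i)) := by
    have h4 : P N / N * ((1 / 2) * (2 * (2 * K / (P N / N)))) = 2 * K := by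
      have hc' := hc.ne'
      generalize P N / (N : ℝ) = q at hc'
      field_simp
    rw [← h4]
    exact mul_lt_mul_of_pos_left (mul_lt_mul_of_pos_left hj (by norm_num)) hc
  nlinarith

/-- the asymptotics asserted at `s = 1/2` cannot hold for `p0`. -/
lemma not_tendsto
    (h : Tendsto (fun n : ℕ => (F (it p0 n) (1 / 2) - 1) / (8 * (-(1 / 3)) / (n : ℝ) ^ 2))
      atTop (𝓝 1)) : False := by
  set f : ℕ → ℝ := fun n => F (it p0 n) (1 / 2) - 1 with hf
  have h1 : Tendsto (fun n : ℕ => (n : ℝ) ^ 2 * f n) atTop (𝓝 (-(8 / 3))) := by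
    have h2 := h.mul_const (-(8 / 3) : ℝ)
    rw [one_mul] at h2
    refine h2.congr' ?_
    filter_upwards [eventually_ge_atTop 1] with n hn
    have hn0 : (n : ℝ) ≠ 0 := by
      have : 0 < n := by omega
      positivity
    simp only [hf]
    field_simp
  have h1' : Tendsto (fun n : ℕ => ((n + 1 : ℕ) : ℝ) ^ 2 * f (n + 1)) atTop (𝓝 (-(8 / 3))) :=
    h1.comp (tendsto_add_atTop_nat 1)
  have hinv : Tendsto (fun n : ℕ => (1 : ℝ) / n) atTop (𝓝 0) := tendsto_one_div_atTop_nhds_zero_nat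
  set a : ℕ → ℝ := fun n => F (it p0 n) 2 - 1 with ha
  set d : ℕ → ℝ := fun n => (1 - (it p0 n 0) ^ 2) / 2 with hd
  have hF2 : ∀ n, F (it p0 (n + 1)) 2 = (F (it p0 n) 2 ^ 2 + (2 - 1) * it p0 n 0 ^ 2) / 2 := by
    intro n
    exact (hasSum_gen (it_crit p0_crit n) (s := 2) (by norm_num) le_rfl).tsum_eq
  have hFh : ∀ n, F (it p0 (n + 1)) (1 / 2) =
      (F (it p0 n) (1 / 2) ^ 2 + (1 / 2 - 1) * it p0 n 0 ^ 2) / (1 / 2) := by
    intro n
    exact (hasSum_gen (it_crit p0_crit n) (s := 1 / 2) (by norm_num) (by norm_num)).tsum_eq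
  have hdf : ∀ n, d n = -2 * f n - (f n) ^ 2 + f (n + 1) / 2 := by
    intro n
    simp only [hd, hf]
    rw [hFh n]
    ring
  have hlim : Tendsto (fun n : ℕ => (n : ℝ) ^ 2 * d n) atTop (𝓝 4) := by
    have e : Tendsto (fun n : ℕ => -2 * ((n : ℝ) ^ 2 * f n)
        - ((n : ℝ) ^ 2 * f n) ^ 2 * ((1 / (n : ℝ)) * (1 / n))
        + (1 / 2) * (((n + 1 : ℕ) : ℝ) ^ 2 * f (n + 1)) * (1 / (1 + 1 / (n : ℝ))) ^ 2) atTop
        (𝓝 (-2 * (-(8 / 3)) - (-(8 / 3)) ^ 2 * (0 * 0) + (1 / 2) * (-(8 / 3)) * (1 / (1 + 0)) ^ 2)) := by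
      refine Tendsto.add (Tendsto.sub (h1.const_mul _) ((h1.pow 2).mul (hinv.mul hinv))) ?_
      refine Tendsto.mul (h1'.const_mul _) (Tendsto.pow ?_ 2)
      refine Tendsto.div tendsto_const_nhds (tendsto_const_nhds.add hinv) (by norm_num)
    have e2 : (-2 * (-(8 / 3)) - (-(8 / 3)) ^ 2 * (0 * 0) + (1 / 2) * (-(8 / 3)) * (1 / (1 + 0)) ^ 2 : ℝ)
        = 4 := by norm_num
    rw [e2] at e
    refine e.congr' ?_
    filter_upwards [eventually_ge_atTop 1] with n hn
    have hn0 : (n : ℝ) ≠ 0 := by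
      have : 0 < n := by omega
      positivity
    have hn1 : (n : ℝ) + 1 ≠ 0 := by positivity
    rw [hdf n]
    push_cast
    field_simp
  have hd' : ∀ᶠ n : ℕ in atTop, 7 / 2 ≤ (n : ℝ) ^ 2 * d n :=
    (hlim.eventually_const_lt (by norm_num : (7 / 2 : ℝ) < 4)).mono fun n hn => hn.le
  refine analysis a d ?_ ?_ hd' (64 * Z) ?_
  · intro n
    simp only [ha]
    linarith [one_le_F (it_crit p0_crit n)]
  · intro n
    simp only [ha, hd]
    rw [hF2 n]
    ring
  · intro n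
    have h3 := prod_upper n
    have h4 : ∏ i ∈ range n, (1 + a i) = ∏ i ∈ range n, F (it p0 i) 2 := by
      refine Finset.prod_congr rfl fun i _ => ?_
      simp only [ha]; ring
    rw [h4]
    exact h3

end Run7.h240.DR
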