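import Mathlib

/-!
Poisson random measure with intensity Lebesgue measure on `(0, ∞) × ℝ`, built from independent blocks.
-/

set_option autoImplicit false

open MeasureTheory ProbabilityTheory Set Filter Topology
open scoped NNReal ENNReal

namespace Run7.h240.St

/-- index of a unit box -/
abbrev Idx := ℕ × ℤ

/-- unit boxes -/
def box (p : Idx) : Set (ℝ × ℝ) := Ioc (p.1 : ℝ) (p.1 + 1) ×ˢ Ioc (p.2 : ℝ) (p.2 + 1)

lemma measurableSet_box (p : Idx) : MeasurableSet (box p) :=
  measurableSet_Ioc.prod measurableSet_Ioc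

/-- uniform law on a box -/
noncomputable def nu (p : Idx) : Measure (ℝ × ℝ) := volume.restrict (box p)

lemma vol_box (p : Idx) : volume (box p) = 1 := by
  rw [box, Measure.volume_eq_prod, Measure.prod_prod, Real.volume_Ioc, Real.volume_Ioc]
  simp

instance (p : Idx) : IsProbabilityMeasure (nu p) := ⟨by
  rw [nu, Measure.restrict_apply_univ, vol_box]⟩

/-- a block: number of points and the points -/
abbrev Blk := ℕ × (ℕ → ℝ × ℝ)

/-- law of a block -/
noncomputable def blk (p : Idx) : Measure Blk :=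
  (poissonMeasure 1).prod (Measure.infinitePi fun _ : ℕ => nu p)

instance (p : Idx) : IsProbabilityMeasure (blk p) := by unfold blk; infer_instance

/-- sample space -/
abbrev Om := Idx → Blk

/-- the law -/
noncomputable def PP : Measure Om := Measure.infinitePi blk

instance : IsProbabilityMeasure PP := by unfold PP; infer_instance

lemma integral_prod_infinitePi {ι : Type*} {X : ι → Type*} [∀ i, MeasurableSpace (X i)]
    (μ : ∀ i, Measure (X i)) [∀ i, IsProbabilityMeasure (μ i)] (s : Finset ι)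
    (f : ∀ i, X i → ℂ) (hf : ∀ i, Measurable (f i)) :
    ∫ y, ∏ i ∈ s, f i (y i) ∂(Measure.infinitePi μ) = ∏ i ∈ s, ∫ x, f i x ∂(μ i) := by
  have h := integral_restrict_infinitePi (μ := μ) (s := s)
    (f := fun y : (∀ i : s, X i) => ∏ i : s, f i (y i)) (by
      apply Measurable.aestronglyMeasurable
      exact Finset.measurable_prod _ (fun i _ => (hf i).comp (measurable_pi_apply i)))
  have h1 : ∀ y : (∀ i, X i), ∏ i ∈ s, f i (y i) = ∏ i : s, f i (s.restrict y i) := by
    intro y
    rw [← Finset.prod_coe_sort s (fun i => f i (y i))]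
    rfl
  simp_rw [h1]
  rw [h]
  rw [integral_fintype_prod_eq_prod (f := fun (i : s) (x : X i) => f i x)]
  rw [Finset.prod_coe_sort s (fun i => ∫ x, f i x ∂(μ i))]

lemma measurable_blk_prod {g : ℝ × ℝ → ℂ} (hg : Measurable g) :
    Measurable (fun b : Blk => ∏ i ∈ Finset.range b.1, g (b.2 i)) := by
  apply measurable_from_prod_countable_right
  intro k
  simp only
  exact Finset.measurable_prod (Finset.range k) (fun i _ => hg.comp (measurable_pi_apply i))

lemma integral_blk (p : Idx) {g : ℝ × ℝ → ℂ} (hg : Measurable g) (hb : ∀ u, ‖g u‖ ≤ 1) :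
    ∫ b, ∏ i ∈ Finset.range b.1, g (b.2 i) ∂(blk p) =
      Complex.exp ((∫ u, g u ∂(nu p)) - 1) := by
  have hint : Integrable (fun b : Blk => ∏ i ∈ Finset.range b.1, g (b.2 i)) (blk p) := by
    refine Integrable.of_bound (measurable_blk_prod hg).aestronglyMeasurable 1 (ae_of_all _ ?_)
    intro b
    rw [norm_prod]
    exact Finset.prod_le_one (fun i _ => norm_nonneg _) (fun i _ => hb _)
  rw [blk] at hint ⊢
  rw [integral_prod _ hint]
  have h1 : ∀ k : ℕ, ∫ U, ∏ i ∈ Finset.range k, g (U i) ∂(Measure.infinitePi fun _ : ℕ => nu p) =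
      (∫ u, g u ∂(nu p)) ^ k := by
    intro k
    rw [integral_prod_infinitePi (fun _ : ℕ => nu p) (Finset.range k) (fun _ => g) (fun _ => hg)]
    simp
  simp_rw [h1]
  rw [integral_poissonMeasure (1 : ℝ≥0)]
  calc ∑' n : ℕ, (Real.exp (-((1 : ℝ≥0) : ℝ)) * ((1 : ℝ≥0) : ℝ) ^ n / (n.factorial)) • (∫ u, g u ∂(nu p)) ^ n
      = ∑' n : ℕ, (Real.exp (-1) : ℂ) * ((∫ u, g u ∂(nu p)) ^ n / n.factorial) := by
        congr with n
        rw [Complex.real_smul]
        push_cast
        ring
    _ = (Real.exp (-1) : ℂ) * ∑' n : ℕ, ((∫ u, g u ∂(nu p)) ^ n / n.factorial) := tsum_mul_left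
    _ = (Real.exp (-1) : ℂ) * Complex.exp (∫ u, g u ∂(nu p)) := by
        rw [(NormedSpace.expSeries_div_hasSum_exp (∫ u, g u ∂(nu p))).tsum_eq,
          Complex.exp_eq_exp_ℂ]
    _ = _ := by
        rw [Complex.ofReal_exp, ← Complex.exp_add]
        push_cast
        ring_nf

lemma integral_PP (S : Finset Idx) {g : ℝ × ℝ → ℂ}
    (hg : Measurable g) (hb : ∀ u, ‖g u‖ ≤ 1) :
    ∫ ω : Om, ∏ p ∈ S, ∏ i ∈ Finset.range (ω p).1, g ((ω p).2 i) ∂PP =
      ∏ p ∈ S, Complex.exp ((∫ u, g u ∂(nu p)) - 1) := by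
  rw [PP, integral_prod_infinitePi (fun p : Idx => blk p) S
    (fun _ b => ∏ i ∈ Finset.range b.1, g (b.2 i)) (fun _ => measurable_blk_prod hg)]
  exact Finset.prod_congr rfl (fun p _ => integral_blk p hg hb)

/-- sums over the points of a block -/
noncomputable def sE (f : ℝ × ℝ → ℝ≥0∞) (b : Blk) : ℝ≥0∞ := ∑ i ∈ Finset.range b.1, f (b.2 i)

/-- real version -/
noncomputable def sB (g : ℝ × ℝ → ℝ) (b : Blk) : ℝ := ∑ i ∈ Finset.range b.1, g (b.2 i)

/-- sum over all points -/
noncomputable def LE (f : ℝ × ℝ → ℝ≥0∞) (ω : Om) : ℝ≥0∞ := ∑' p, sE f (ω p)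

/-- real version -/
noncomputable def L (g : ℝ × ℝ → ℝ) (ω : Om) : ℝ := ∑' p, sB g (ω p)

lemma measurable_sE {f : ℝ × ℝ → ℝ≥0∞} (hf : Measurable f) : Measurable (sE f) := by
  apply measurable_from_prod_countable_right
  intro k
  simp only [sE]
  exact Finset.measurable_sum (Finset.range k) (fun i _ => hf.comp (measurable_pi_apply i))

lemma measurable_sB {f : ℝ × ℝ → ℝ} (hf : Measurable f) : Measurable (sB f) := by
  apply measurable_from_prod_countable_right
  intro k
  simp only [sB]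
  exact Finset.measurable_sum (Finset.range k) (fun i _ => hf.comp (measurable_pi_apply i))

lemma measurable_LE {f : ℝ × ℝ → ℝ≥0∞} (hf : Measurable f) : Measurable (LE f) := by
  unfold LE
  exact Measurable.tsum fun p => (measurable_sE hf).comp (measurable_pi_apply p)

lemma poisson_mean : ∫⁻ n : ℕ, (n : ℝ≥0∞) ∂(poissonMeasure 1) = 1 := by
  rw [lintegral_countable']
  have h1 : ∀ n : ℕ, (n : ℝ≥0∞) * (poissonMeasure 1) {n} =
      ENNReal.ofReal (Real.exp (-1) * ((n : ℝ) / n.factorial)) := by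
    intro n
    rw [poissonMeasure_singleton]
    rw [← ENNReal.ofReal_natCast n, ← ENNReal.ofReal_mul (by positivity)]
    congr 1
    push_cast
    ring
  simp_rw [h1]
  have h2 : HasSum (fun n : ℕ => Real.exp (-1) * ((n : ℝ) / n.factorial)) 1 := by
    have h3 : HasSum (fun n : ℕ => (((n + 1 : ℕ) : ℝ) / (n + 1).factorial)) (Real.exp 1) := by
      have h4 : HasSum (fun n : ℕ => (1 : ℝ) ^ n / n.factorial) (Real.exp 1) := by
        rw [Real.exp_eq_exp_ℝ]
        exact NormedSpace.expSeries_div_hasSum_exp (1 : ℝ)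
      convert h4 using 1
      funext n
      rw [Nat.factorial_succ]
      push_cast
      field_simp
      simp
    have h5 : HasSum (fun n : ℕ => ((n : ℝ) / n.factorial)) (Real.exp 1) := by
      rw [← hasSum_nat_add_iff' 1]
      simpa using h3
    have h6 := h5.mul_left (Real.exp (-1))
    rw [← Real.exp_add] at h6
    simpa using h6
  rw [← ENNReal.ofReal_tsum_of_nonneg (fun n => by positivity) h2.summable, h2.tsum_eq]
  simp

lemma lintegral_sE (p : Idx) {f : ℝ × ℝ → ℝ≥0∞} (hf : Measurable f) :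
    ∫⁻ b, sE f b ∂(blk p) = ∫⁻ u in box p, f u := by
  rw [blk, lintegral_prod _ (measurable_sE hf).aemeasurable]
  have h1 : ∀ k : ℕ, ∫⁻ U, sE f (k, U) ∂(Measure.infinitePi fun _ : ℕ => nu p) =
      (k : ℝ≥0∞) * ∫⁻ u in box p, f u := by
    intro k
    simp only [sE]
    rw [lintegral_finsetSum (Finset.range k) (f := fun i (U : ℕ → ℝ × ℝ) => f (U i))
      (fun i _ => hf.comp (measurable_pi_apply i))]
    have h2 : ∀ i ∈ Finset.range k, ∫⁻ U : ℕ → ℝ × ℝ, f (U i) ∂(Measure.infinitePi fun _ : ℕ => nu p) =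
        ∫⁻ u in box p, f u := by
      intro i _
      exact (measurePreserving_eval_infinitePi (fun _ : ℕ => nu p) i).lintegral_comp hf
    rw [Finset.sum_congr rfl h2]
    simp
  simp_rw [h1]
  rw [lintegral_mul_const _ (by fun_prop), poisson_mean, one_mul]

/-- the domain -/
def UU : Set (ℝ × ℝ) := Ioi (0 : ℝ) ×ˢ univ

lemma iUnion_box : ⋃ p : Idx, box p = UU := by
  ext x
  obtain ⟨s, v⟩ := x
  simp only [mem_iUnion, box, UU, mem_prod, mem_Ioc, mem_Ioi, mem_univ, and_true]
  constructor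
  · rintro ⟨p, ⟨h1, _⟩, _⟩
    exact lt_of_le_of_lt (by positivity) h1
  · intro hs
    refine ⟨(⌈s⌉₊ - 1, ⌈v⌉ - 1), ⟨?_, ?_⟩, ?_, ?_⟩
    · have h1 : 1 ≤ ⌈s⌉₊ := Nat.one_le_ceil_iff.2 hs
      have h2 := Nat.ceil_lt_add_one hs.le
      rw [Nat.cast_sub h1]
      push_cast
      linarith
    · have h1 : 1 ≤ ⌈s⌉₊ := Nat.one_le_ceil_iff.2 hs
      have h2 := Nat.le_ceil s
      rw [Nat.cast_sub h1]
      push_cast
      linarith
    · have := Int.ceil_lt_add_one v
      push_cast
      linarith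
    · have := Int.le_ceil v
      push_cast
      linarith

lemma disjoint_box : Pairwise (Function.onFun Disjoint box) := by
  intro p q hpq
  rw [Function.onFun, Set.disjoint_left]
  rintro ⟨s, v⟩ h1 h2
  simp only [box, mem_prod, mem_Ioc] at h1 h2
  obtain ⟨⟨a1, a2⟩, a3, a4⟩ := h1
  obtain ⟨⟨b1, b2⟩, b3, b4⟩ := h2
  apply hpq
  have e1 : p.1 = q.1 := by
    have c1 : (p.1 : ℝ) < q.1 + 1 := by linarith
    have c2 : (q.1 : ℝ) < p.1 + 1 := by linarith
    have c1' : p.1 < q.1 + 1 := by exact_mod_cast c1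
    have c2' : q.1 < p.1 + 1 := by exact_mod_cast c2
    omega
  have e2 : p.2 = q.2 := by
    have c1 : (p.2 : ℝ) < q.2 + 1 := by linarith
    have c2 : (q.2 : ℝ) < p.2 + 1 := by linarith
    have c1' : p.2 < q.2 + 1 := by exact_mod_cast c1
    have c2' : q.2 < p.2 + 1 := by exact_mod_cast c2
    omega
  exact Prod.ext e1 e2

/-- Campbell's formula -/
lemma campbell {f : ℝ × ℝ → ℝ≥0∞} (hf : Measurable f) :
    ∫⁻ ω, LE f ω ∂PP = ∫⁻ u in UU, f u := by
  unfold LE
  rw [lintegral_tsum (f := fun p (ω : Om) => sE f (ω p))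
    (fun p => ((measurable_sE hf).comp (measurable_pi_apply p)).aemeasurable)]
  rw [← iUnion_box, lintegral_iUnion measurableSet_box disjoint_box]
  refine tsum_congr fun p => ?_
  rw [← lintegral_sE p hf]
  exact (measurePreserving_eval_infinitePi blk p).lintegral_comp (measurable_sE hf)

lemma measurableSet_UU : MeasurableSet UU := measurableSet_Ioi.prod MeasurableSet.univ

lemma sE_lt_top {g : ℝ × ℝ → ℝ} (b : Blk) : sE (fun u => ENNReal.ofReal |g u|) b < ∞ := by
  unfold sE
  exact ENNReal.sum_lt_top.2 fun i _ => ENNReal.ofReal_lt_top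

/-- almost sure absolute convergence -/
lemma ae_LE_lt_top {g : ℝ × ℝ → ℝ} (hg : Measurable g)
    (h : ∫⁻ u in UU, ENNReal.ofReal (min 1 |g u|) < ∞) :
    ∀ᵐ ω ∂PP, LE (fun u => ENNReal.ofReal |g u|) ω < ∞ := by
  have hm : Measurable (fun u => ENNReal.ofReal (min 1 |g u|)) := by fun_prop
  rw [← campbell hm] at h
  filter_upwards [ae_lt_top (measurable_LE hm) h.ne] with ω hω
  set A : Idx → ℝ≥0∞ := fun p => sE (fun u => ENNReal.ofReal |g u|) (ω p) with hA
  have hAfin : ∀ p, A p < ∞ := fun p => sE_lt_top (ω p)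
  have hmin : ∀ p, min 1 (A p) ≤ sE (fun u => ENNReal.ofReal (min 1 |g u|)) (ω p) := by
    intro p
    simp only [hA, sE]
    generalize Finset.range (ω p).1 = s
    induction s using Finset.induction_on with
    | empty => simp
    | insert a s ha ih =>
      rw [Finset.sum_insert ha, Finset.sum_insert ha]
      have e1 : ENNReal.ofReal (min 1 |g ((ω p).2 a)|) = min 1 (ENNReal.ofReal |g ((ω p).2 a)|) := by
        rw [ENNReal.ofReal_min, ENNReal.ofReal_one]
      rw [e1]
      refine le_trans ?_ (add_le_add_right ih _)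
      rcases le_total 1 (ENNReal.ofReal |g ((ω p).2 a)|) with h1 | h1
      · rw [min_eq_left h1]
        exact (min_le_left _ _).trans le_self_add
      · rw [min_eq_right h1]
        rcases le_total 1 (∑ x ∈ s, ENNReal.ofReal |g ((ω p).2 x)|) with h2 | h2
        · rw [min_eq_left h2]
          exact (min_le_left _ _).trans le_add_self
        · rw [min_eq_right h2]
          exact min_le_right _ _
  have hsum : ∑' p, min 1 (A p) < ∞ := lt_of_le_of_lt (ENNReal.tsum_le_tsum hmin) hω
  have hfin : {p | 1 ≤ min 1 (A p)}.Finite :=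
    ENNReal.finite_const_le_of_tsum_ne_top hsum.ne one_ne_zero
  have hle : ∀ p, A p ≤ ({p | 1 ≤ min 1 (A p)} : Set Idx).indicator A p + min 1 (A p) := by
    intro p
    by_cases hp : p ∈ {p | 1 ≤ min 1 (A p)}
    · rw [Set.indicator_of_mem hp]
      exact le_self_add
    · rw [Set.indicator_of_notMem hp, zero_add]
      simp only [Set.mem_ofPred_eq, le_min_iff, le_refl, true_and, not_le] at hp
      rw [min_eq_right hp.le]
  refine lt_of_le_of_lt (ENNReal.tsum_le_tsum hle) ?_
  rw [ENNReal.tsum_add]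
  refine ENNReal.add_lt_top.2 ⟨?_, hsum⟩
  rw [tsum_eq_sum (s := hfin.toFinset)]
  · refine ENNReal.sum_lt_top.2 fun p _ => ?_
    exact lt_of_le_of_lt (Set.indicator_le_self _ _ p) (hAfin p)
  · intro p hp
    rw [Set.indicator_of_notMem]
    simpa using hp

lemma abs_sB_le (g : ℝ × ℝ → ℝ) (b : Blk) :
    |sB g b| ≤ (sE (fun u => ENNReal.ofReal |g u|) b).toReal := by
  unfold sB sE
  rw [ENNReal.toReal_sum (fun i _ => ENNReal.ofReal_ne_top)]
  refine (Finset.abs_sum_le_sum_abs _ _).trans (le_of_eq ?_)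
  refine Finset.sum_congr rfl fun i _ => ?_
  rw [ENNReal.toReal_ofReal (abs_nonneg _)]

lemma summable_of_LE {g : ℝ × ℝ → ℝ} {ω : Om}
    (h : LE (fun u => ENNReal.ofReal |g u|) ω < ∞) : Summable fun p => sB g (ω p) := by
  have h1 : Summable fun p => (sE (fun u => ENNReal.ofReal |g u|) (ω p)).toReal :=
    ENNReal.summable_toReal h.ne
  exact Summable.of_norm_bounded h1 (fun p => by rw [Real.norm_eq_abs]; exact abs_sB_le g (ω p))

/-- characteristic function of a sum over all points -/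
lemma char_L {g : ℝ × ℝ → ℝ} (hg : Measurable g)
    (hs : ∀ᵐ ω ∂PP, LE (fun u => ENNReal.ofReal |g u|) ω < ∞)
    (hi : IntegrableOn (fun u => Complex.exp ((g u : ℂ) * Complex.I) - 1) UU) :
    ∫ ω, Complex.exp ((L g ω : ℂ) * Complex.I) ∂PP =
      Complex.exp (∫ u in UU, (Complex.exp ((g u : ℂ) * Complex.I) - 1)) := by
  have hge : Measurable (fun u => Complex.exp ((g u : ℂ) * Complex.I)) := by fun_prop
  have hn : ∀ u, ‖Complex.exp ((g u : ℂ) * Complex.I)‖ ≤ 1 := fun u => by
    rw [Complex.norm_exp_ofReal_mul_I]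
  -- partial sums
  have h1 : ∀ S : Finset Idx, ∫ ω, Complex.exp (((∑ p ∈ S, sB g (ω p) : ℝ) : ℂ) * Complex.I) ∂PP =
      Complex.exp (∑ p ∈ S, ∫ u in box p, (Complex.exp ((g u : ℂ) * Complex.I) - 1)) := by
    intro S
    have h2 : ∀ ω : Om, Complex.exp (((∑ p ∈ S, sB g (ω p) : ℝ) : ℂ) * Complex.I) =
        ∏ p ∈ S, ∏ i ∈ Finset.range (ω p).1, Complex.exp ((g ((ω p).2 i) : ℂ) * Complex.I) := by
      intro ω
      rw [Complex.ofReal_sum, Finset.sum_mul, Complex.exp_sum]
      refine Finset.prod_congr rfl fun p _ => ?_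
      rw [sB, Complex.ofReal_sum, Finset.sum_mul, Complex.exp_sum]
    simp_rw [h2]
    rw [integral_PP S hge hn, ← Complex.exp_sum]
    congr 1
    refine Finset.sum_congr rfl fun p _ => ?_
    have h3 : Integrable (fun u => Complex.exp ((g u : ℂ) * Complex.I)) (nu p) :=
      Integrable.of_bound hge.aestronglyMeasurable 1 (ae_of_all _ hn)
    have h4 := integral_sub h3 (integrable_const (1 : ℂ))
    rw [integral_const] at h4
    simp only [probReal_univ, one_smul] at h4
    rw [← h4]
    rfl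
  have h2 : Tendsto (fun S : Finset Idx => ∑ p ∈ S, ∫ u in box p, (Complex.exp ((g u : ℂ) * Complex.I) - 1))
      atTop (𝓝 (∫ u in UU, (Complex.exp ((g u : ℂ) * Complex.I) - 1))) := by
    have h3 := hasSum_integral_iUnion (μ := volume) measurableSet_box disjoint_box
      (f := fun u => Complex.exp ((g u : ℂ) * Complex.I) - 1) (by rw [iUnion_box]; exact hi)
    rw [iUnion_box] at h3
    exact h3
  have h3 : Tendsto (fun S : Finset Idx => ∫ ω, Complex.exp (((∑ p ∈ S, sB g (ω p) : ℝ) : ℂ) * Complex.I) ∂PP)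
      atTop (𝓝 (∫ ω, Complex.exp ((L g ω : ℂ) * Complex.I) ∂PP)) := by
    refine tendsto_integral_filter_of_dominated_convergence (fun _ => (1 : ℝ)) ?_ ?_ (integrable_const _) ?_
    · refine Eventually.of_forall fun S => ?_
      apply Measurable.aestronglyMeasurable
      have : Measurable (fun ω : Om => ∑ p ∈ S, sB g (ω p)) :=
        Finset.measurable_sum S fun p _ => (measurable_sB hg).comp (measurable_pi_apply p)
      fun_prop
    · refine Eventually.of_forall fun S => ae_of_all _ fun ω => ?_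
      rw [Complex.norm_exp_ofReal_mul_I]
    · filter_upwards [hs] with ω hω
      have h4 := (summable_of_LE hω).hasSum
      have h5 : Tendsto (fun S : Finset Idx => (∑ p ∈ S, sB g (ω p))) atTop (𝓝 (L g ω)) := h4
      have hc : Continuous (fun x : ℝ => Complex.exp ((x : ℂ) * Complex.I)) := by fun_prop
      exact (hc.tendsto _).comp h5
  refine tendsto_nhds_unique h3 ?_
  simp_rw [h1]
  exact (Complex.continuous_exp.tendsto _).comp h2

end Run7.h240.St
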