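import Mathlib

/-!
A measure on a graph whose Fourier transform decays in the vertical direction cannot live on few
vertical levels.
-/

set_option autoImplicit false

open MeasureTheory ProbabilityTheory Set Filter Topology
open scoped NNReal ENNReal

namespace Run7.h240.St

/-- standard Gaussian -/
noncomputable def gam : Measure ℝ := gaussianReal 0 1

instance : IsProbabilityMeasure gam := by unfold gam; infer_instance

lemma gam_char (x : ℝ) : ∫ z, Complex.exp (((z * x : ℝ) : ℂ) * Complex.I) ∂gam =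
    ((Real.exp (-(x ^ 2) / 2) : ℝ) : ℂ) := by
  have h := charFun_gaussianReal (μ := 0) (v := 1) x
  rw [charFun_apply_real] at h
  have h1 : (fun z : ℝ => Complex.exp (((z * x : ℝ) : ℂ) * Complex.I)) =
      fun z : ℝ => Complex.exp ((x : ℂ) * z * Complex.I) := by
    funext z
    push_cast
    ring_nf
  rw [h1]
  unfold gam
  rw [h]
  push_cast
  congr 1
  ring

/-- the exponent `3/4` moment -/
noncomputable def Ms : ℝ := ∫ z, |z| ^ (-(3 / 4) : ℝ) ∂gam

lemma integrable_rpow_gam : Integrable (fun z : ℝ => |z| ^ (-(3 / 4) : ℝ)) gam := by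
  have hm : Measurable (fun z : ℝ => |z| ^ (-(3 / 4) : ℝ)) := by fun_prop
  refine ⟨hm.aestronglyMeasurable, ?_⟩
  rw [hasFiniteIntegral_iff_ofReal (ae_of_all _ fun z => by positivity)]
  have h1 : gam = volume.withDensity (gaussianPDF 0 1) := by
    unfold gam
    rw [gaussianReal_of_var_ne_zero _ one_ne_zero]
  rw [h1, lintegral_withDensity_eq_lintegral_mul _ (measurable_gaussianPDF 0 1) (by fun_prop)]
  -- bound by `1_{|z| ≤ 1} |z|^(-3/4) + pdf`
  have h2 : ∀ z : ℝ, (gaussianPDF 0 1 * fun z : ℝ => ENNReal.ofReal (|z| ^ (-(3 / 4) : ℝ))) z ≤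
      (Icc (-1 : ℝ) 1).indicator (fun z => ENNReal.ofReal (|z| ^ (-(3 / 4) : ℝ))) z + gaussianPDF 0 1 z := by
    intro z
    simp only [Pi.mul_apply]
    by_cases hz : z ∈ Icc (-1 : ℝ) 1
    · rw [indicator_of_mem hz]
      refine le_trans ?_ le_self_add
      have : gaussianPDF 0 1 z ≤ 1 := by
        unfold gaussianPDF
        rw [ENNReal.ofReal_le_one]
        unfold gaussianPDFReal
        have e1 : (Real.sqrt (2 * Real.pi * ((1 : ℝ≥0) : ℝ)))⁻¹ ≤ 1 := by
          rw [inv_le_one₀ (by positivity)]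
          rw [Real.one_le_sqrt]
          have := Real.pi_gt_three
          push_cast
          linarith
        have e2 : Real.exp (-(z - 0) ^ 2 / (2 * ((1 : ℝ≥0) : ℝ))) ≤ 1 := by
          rw [Real.exp_le_one_iff]
          have : 0 ≤ (z - 0) ^ 2 := sq_nonneg _
          push_cast
          linarith
        exact mul_le_one₀ e1 (by positivity) e2
      calc gaussianPDF 0 1 z * ENNReal.ofReal (|z| ^ (-(3 / 4) : ℝ))
          ≤ 1 * ENNReal.ofReal (|z| ^ (-(3 / 4) : ℝ)) := mul_le_mul_left this _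
        _ = _ := one_mul _
    · rw [indicator_of_notMem hz, zero_add]
      have hz1 : 1 ≤ |z| := by
        by_contra h
        push Not at h
        exact hz (abs_le.1 h.le)
      have : ENNReal.ofReal (|z| ^ (-(3 / 4) : ℝ)) ≤ 1 := by
        rw [ENNReal.ofReal_le_one]
        exact Real.rpow_le_one_of_one_le_of_nonpos hz1 (by norm_num)
      calc gaussianPDF 0 1 z * ENNReal.ofReal (|z| ^ (-(3 / 4) : ℝ))
          ≤ gaussianPDF 0 1 z * 1 := mul_le_mul_right this _
        _ = _ := mul_one _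
  refine lt_of_le_of_lt (lintegral_mono h2) ?_
  rw [lintegral_add_right _ (measurable_gaussianPDF 0 1), lintegral_gaussianPDF_eq_one 0 one_ne_zero,
    lintegral_indicator measurableSet_Icc]
  refine ENNReal.add_lt_top.2 ⟨?_, ENNReal.one_lt_top⟩
  have h3 : IntegrableOn (fun z : ℝ => |z| ^ (-(3 / 4) : ℝ)) (Icc (-1 : ℝ) 1) := by
    have h4 : Icc (-1 : ℝ) 1 = Icc (-1) 0 ∪ Icc 0 1 := by
      rw [Icc_union_Icc_eq_Icc] <;> norm_num
    rw [h4]
    have h5 : IntegrableOn (fun z : ℝ => |z| ^ (-(3 / 4) : ℝ)) (Icc (0 : ℝ) 1) := by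
      have h6 := (intervalIntegral.intervalIntegrable_rpow' (a := 0) (b := 1)
        (r := (-(3 / 4) : ℝ)) (by norm_num))
      rw [intervalIntegrable_iff_integrableOn_Icc_of_le zero_le_one] at h6
      refine h6.congr_fun (fun z hz => ?_) measurableSet_Icc
      simp only [abs_of_nonneg hz.1]
    refine IntegrableOn.union ?_ h5
    have h7 := h5.comp_neg
    have e : -Icc (0 : ℝ) 1 = Icc (-1) 0 := by
      ext z; simp only [Set.mem_neg, mem_Icc]; constructor <;> rintro ⟨a, b⟩ <;> constructor <;> linarith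
    rw [e] at h7
    refine h7.congr_fun (fun z _ => ?_) measurableSet_Icc
    simp only [abs_neg]
  exact h3.lintegral_lt_top

lemma Ms_pos : 0 < Ms := by
  unfold Ms
  rw [integral_pos_iff_support_of_nonneg (fun z => by positivity) integrable_rpow_gam]
  have h1 : Ioo (1 : ℝ) 2 ⊆ Function.support (fun z : ℝ => |z| ^ (-(3 / 4) : ℝ)) := by
    intro z hz
    rw [Function.mem_support]
    have : 0 < |z| := abs_pos.2 (ne_of_gt (by linarith [hz.1]))
    positivity
  refine lt_of_lt_of_le ?_ (measure_mono h1)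
  unfold gam
  rw [pos_iff_ne_zero]
  intro h
  have h2 := (gaussianReal_absolutelyContinuous' (0 : ℝ) (v := 1) one_ne_zero) h
  rw [Real.volume_Ioo] at h2
  norm_num at h2

section

variable {μ : Measure (ℝ × ℝ)} [IsProbabilityMeasure μ]

/-- vertical Fourier transform -/
noncomputable def phi (μ : Measure (ℝ × ℝ)) (η : ℝ) : ℂ :=
  ∫ p, Complex.exp (((η * p.2 : ℝ) : ℂ) * Complex.I) ∂μ

lemma norm_phi_le (η : ℝ) : ‖phi μ η‖ ≤ 1 := by
  unfold phi
  refine (norm_integral_le_integral_norm _).trans ?_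
  simp_rw [Complex.norm_exp_ofReal_mul_I]
  simp

lemma measurable_phi : Measurable (phi μ) := by
  unfold phi
  have h : StronglyMeasurable (fun x : ℝ × (ℝ × ℝ) => Complex.exp (((x.1 * x.2.2 : ℝ) : ℂ) * Complex.I)) := by
    apply Measurable.stronglyMeasurable
    fun_prop
  exact h.integral_prod_right.measurable

/-- energy identity -/
lemma energy (ε : ℝ) :
    ∫ w : (ℝ × ℝ) × (ℝ × ℝ), Real.exp (-(((w.1.2 - w.2.2) / ε) ^ 2) / 2) ∂(μ.prod μ) =
      ∫ z, ‖phi μ (z / ε)‖ ^ 2 ∂gam := by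
  have h1 : ((∫ w : (ℝ × ℝ) × (ℝ × ℝ), Real.exp (-(((w.1.2 - w.2.2) / ε) ^ 2) / 2) ∂(μ.prod μ) : ℝ) : ℂ) =
      ∫ w : (ℝ × ℝ) × (ℝ × ℝ), ∫ z, Complex.exp (((z * ((w.1.2 - w.2.2) / ε) : ℝ) : ℂ) * Complex.I) ∂gam ∂(μ.prod μ) := by
    rw [← integral_complex_ofReal]
    refine integral_congr_ae (ae_of_all _ fun w => ?_)
    simp only
    rw [gam_char]
  have h2 : ∫ w : (ℝ × ℝ) × (ℝ × ℝ), ∫ z, Complex.exp (((z * ((w.1.2 - w.2.2) / ε) : ℝ) : ℂ) * Complex.I) ∂gam ∂(μ.prod μ)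
      = ∫ z, ∫ w : (ℝ × ℝ) × (ℝ × ℝ), Complex.exp (((z * ((w.1.2 - w.2.2) / ε) : ℝ) : ℂ) * Complex.I) ∂(μ.prod μ) ∂gam := by
    refine integral_integral_swap ?_
    refine Integrable.of_bound (Measurable.aestronglyMeasurable ?_) 1 (ae_of_all _ fun x => ?_)
    · unfold Function.uncurry
      fun_prop
    · simp only [Function.uncurry]
      rw [Complex.norm_exp_ofReal_mul_I]
  have h3 : ∀ z : ℝ, ∫ w : (ℝ × ℝ) × (ℝ × ℝ), Complex.exp (((z * ((w.1.2 - w.2.2) / ε) : ℝ) : ℂ) * Complex.I) ∂(μ.prod μ)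
      = ((‖phi μ (z / ε)‖ ^ 2 : ℝ) : ℂ) := by
    intro z
    have h4 : ∀ w : (ℝ × ℝ) × (ℝ × ℝ), Complex.exp (((z * ((w.1.2 - w.2.2) / ε) : ℝ) : ℂ) * Complex.I) =
        Complex.exp (((z / ε * w.1.2 : ℝ) : ℂ) * Complex.I) *
        (starRingEnd ℂ) (Complex.exp (((z / ε * w.2.2 : ℝ) : ℂ) * Complex.I)) := by
      intro w
      rw [← Complex.exp_conj, ← Complex.exp_add]
      congr 1
      rw [map_mul, Complex.conj_ofReal, Complex.conj_I]
      push_cast
      ring
    simp_rw [h4]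
    rw [integral_prod_mul (fun p : ℝ × ℝ => Complex.exp (((z / ε * p.2 : ℝ) : ℂ) * Complex.I))
      (fun p : ℝ × ℝ => (starRingEnd ℂ) (Complex.exp (((z / ε * p.2 : ℝ) : ℂ) * Complex.I)))]
    rw [integral_conj]
    rw [show (∫ p, Complex.exp (((z / ε * p.2 : ℝ) : ℂ) * Complex.I) ∂μ) = phi μ (z / ε) from rfl]
    rw [Complex.mul_conj, Complex.normSq_eq_norm_sq]
  rw [h2] at h1
  simp_rw [h3] at h1
  rw [integral_complex_ofReal] at h1
  exact_mod_cast h1

lemma energy_upper {C ε : ℝ} (hε : 0 < ε)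
    (hC : ∀ η : ℝ, 1 ≤ |η| → ‖phi μ η‖ ≤ C * |η| ^ (-(3 / 4) / 2 : ℝ)) :
    ∫ z, ‖phi μ (z / ε)‖ ^ 2 ∂gam ≤ max 1 (C ^ 2) * ε ^ (3 / 4 : ℝ) * Ms := by
  have h1 : ∀ᵐ z ∂gam, ‖phi μ (z / ε)‖ ^ 2 ≤ max 1 (C ^ 2) * ε ^ (3 / 4 : ℝ) * |z| ^ (-(3 / 4) : ℝ) := by
    have h0 : ∀ᵐ z ∂gam, z ≠ 0 := by
      unfold gam
      refine (gaussianReal_absolutelyContinuous (0 : ℝ) (v := 1) one_ne_zero).ae_le ?_
      have h00 : ({0} : Set ℝ)ᶜ ∈ ae (volume : Measure ℝ) := compl_mem_ae_iff.2 (by simp)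
      filter_upwards [h00] with z hz
      exact hz
    filter_upwards [h0] with z hz
    have hz' : 0 < |z| := abs_pos.2 hz
    have hq : 0 < |z / ε| := by rw [abs_div, abs_of_pos hε]; positivity
    have e1 : |z / ε| ^ (-(3 / 4) : ℝ) = ε ^ (3 / 4 : ℝ) * |z| ^ (-(3 / 4) : ℝ) := by
      rw [abs_div, abs_of_pos hε, Real.div_rpow hz'.le hε.le, Real.rpow_neg hε.le]
      field_simp
    have e2 : max 1 (C ^ 2) * ε ^ (3 / 4 : ℝ) * |z| ^ (-(3 / 4) : ℝ) = max 1 (C ^ 2) * |z / ε| ^ (-(3 / 4) : ℝ) := by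
      rw [e1]; ring
    rw [e2]
    rcases le_total 1 |z / ε| with h | h
    · have h2 := hC _ h
      have h3 : 0 ≤ ‖phi μ (z / ε)‖ := norm_nonneg _
      calc ‖phi μ (z / ε)‖ ^ 2 ≤ (C * |z / ε| ^ (-(3 / 4) / 2 : ℝ)) ^ 2 := pow_le_pow_left₀ h3 h2 2
        _ = C ^ 2 * |z / ε| ^ (-(3 / 4) : ℝ) := by
            rw [mul_pow, ← Real.rpow_natCast (|z / ε| ^ (-(3 / 4) / 2 : ℝ)) 2, ← Real.rpow_mul hq.le]
            norm_num
        _ ≤ _ := mul_le_mul_of_nonneg_right (le_max_right _ _) (by positivity)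
    · have h2 : ‖phi μ (z / ε)‖ ^ 2 ≤ 1 := pow_le_one₀ (norm_nonneg _) (norm_phi_le _)
      have h3 : 1 ≤ |z / ε| ^ (-(3 / 4) : ℝ) :=
        Real.one_le_rpow_of_pos_of_le_one_of_nonpos hq h (by norm_num)
      calc ‖phi μ (z / ε)‖ ^ 2 ≤ 1 := h2
        _ ≤ 1 * |z / ε| ^ (-(3 / 4) : ℝ) := by rw [one_mul]; exact h3
        _ ≤ _ := mul_le_mul_of_nonneg_right (le_max_left _ _) (by positivity)
  calc ∫ z, ‖phi μ (z / ε)‖ ^ 2 ∂gam
      ≤ ∫ z, max 1 (C ^ 2) * ε ^ (3 / 4 : ℝ) * |z| ^ (-(3 / 4) : ℝ) ∂gam := by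
        refine integral_mono_ae ?_ (integrable_rpow_gam.const_mul _) h1
        refine Integrable.of_bound (Measurable.aestronglyMeasurable ?_) 1 (ae_of_all _ fun z => ?_)
        · have := measurable_phi (μ := μ)
          fun_prop
        · rw [Real.norm_eq_abs, abs_of_nonneg (by positivity)]
          exact pow_le_one₀ (norm_nonneg _) (norm_phi_le _)
    _ = _ := by rw [integral_const_mul]; rfl

lemma energy_lower {ε : ℝ} (hε : 0 < ε) {K : Set (ℝ × ℝ)} (hK : μ Kᶜ = 0)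
    {q : ℝ → ℕ} (hq : Measurable q) {Q : ℕ} (hQ : ∀ p ∈ K, q p.1 ≤ Q)
    (hK2 : ∀ p ∈ K, ∀ p' ∈ K, q p.1 = q p'.1 → |p.2 - p'.2| ≤ ε) :
    Real.exp (-(1 / 2)) / (Q + 1) ≤
      ∫ w : (ℝ × ℝ) × (ℝ × ℝ), Real.exp (-(((w.1.2 - w.2.2) / ε) ^ 2) / 2) ∂(μ.prod μ) := by
  set B : ℕ → Set (ℝ × ℝ) := fun j => {p | q p.1 = j} with hB
  have hBm : ∀ j, MeasurableSet (B j) := fun j =>
    (hq.comp measurable_fst) (measurableSet_singleton j)
  have hae : ∀ᵐ p ∂μ, p ∈ K := by
    rw [ae_iff]; exact hK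
  have hsum : ∑ j ∈ Finset.range (Q + 1), μ.real (B j) = 1 := by
    rw [← measureReal_biUnion_finset]
    · rw [measureReal_def, (prob_compl_eq_zero_iff ?_).1 ?_]
      · simp
      · exact Finset.measurableSet_biUnion _ fun j _ => hBm j
      · refine measure_mono_null ?_ hK
        intro p hp hpK
        apply hp
        simp only [mem_iUnion]
        exact ⟨q p.1, Finset.mem_range.2 (Nat.lt_succ_of_le (hQ p hpK)), rfl⟩
    · intro i _ j _ hij
      rw [Function.onFun, Set.disjoint_left]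
      intro p h1 h2
      exact hij (h1.symm.trans h2)
    · intro j _; exact hBm j
  have hcs : 1 ≤ ((Q : ℝ) + 1) * ∑ j ∈ Finset.range (Q + 1), (μ.real (B j)) ^ 2 := by
    have := sq_sum_le_card_mul_sum_sq (s := Finset.range (Q + 1)) (f := fun j => μ.real (B j))
    rw [hsum, Finset.card_range] at this
    push_cast at this
    linarith
  have hprod : ∑ j ∈ Finset.range (Q + 1), (μ.real (B j)) ^ 2 =
      ∫ w : (ℝ × ℝ) × (ℝ × ℝ), ∑ j ∈ Finset.range (Q + 1),
        (B j).indicator (fun _ => (1 : ℝ)) w.1 * (B j).indicator (fun _ => (1 : ℝ)) w.2 ∂(μ.prod μ) := by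
    rw [integral_finsetSum]
    · refine Finset.sum_congr rfl fun j _ => ?_
      rw [integral_prod_mul ((B j).indicator (fun _ => (1 : ℝ))) ((B j).indicator (fun _ => (1 : ℝ)))]
      rw [integral_indicator (hBm j), setIntegral_const]
      simp [sq]
    · intro j _
      refine Integrable.of_bound (Measurable.aestronglyMeasurable ?_) 1 (ae_of_all _ fun w => ?_)
      · exact ((measurable_const.indicator (hBm j)).comp measurable_fst).mul
          ((measurable_const.indicator (hBm j)).comp measurable_snd)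
      · simp only [indicator]
        split_ifs <;> simp
  have hmain : Real.exp (-(1 / 2)) * ∑ j ∈ Finset.range (Q + 1), (μ.real (B j)) ^ 2 ≤
      ∫ w : (ℝ × ℝ) × (ℝ × ℝ), Real.exp (-(((w.1.2 - w.2.2) / ε) ^ 2) / 2) ∂(μ.prod μ) := by
    rw [hprod, ← integral_const_mul]
    refine integral_mono_ae ?_ ?_ ?_
    · refine Integrable.const_mul ?_ _
      refine integrable_finsetSum _ fun j _ => ?_
      refine Integrable.of_bound (Measurable.aestronglyMeasurable ?_) 1 (ae_of_all _ fun w => ?_)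
      · exact ((measurable_const.indicator (hBm j)).comp measurable_fst).mul
          ((measurable_const.indicator (hBm j)).comp measurable_snd)
      · simp only [indicator]
        split_ifs <;> simp
    · refine Integrable.of_bound (Measurable.aestronglyMeasurable ?_) 1 (ae_of_all _ fun w => ?_)
      · fun_prop
      · rw [Real.norm_eq_abs, abs_of_pos (Real.exp_pos _), Real.exp_le_one_iff]
        have : 0 ≤ ((w.1.2 - w.2.2) / ε) ^ 2 := sq_nonneg _
        linarith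
    · have h1 : ∀ᵐ w ∂(μ.prod μ), w.1 ∈ K := Measure.quasiMeasurePreserving_fst.ae hae
      have h2 : ∀ᵐ w ∂(μ.prod μ), w.2 ∈ K := Measure.quasiMeasurePreserving_snd.ae hae
      filter_upwards [h1, h2] with w hw1 hw2
      by_cases h : q w.1.1 = q w.2.1
      · have h3 : ∑ j ∈ Finset.range (Q + 1),
            (B j).indicator (fun _ => (1 : ℝ)) w.1 * (B j).indicator (fun _ => (1 : ℝ)) w.2 ≤ 1 := by
          rw [Finset.sum_eq_single (q w.1.1)]
          · simp only [indicator]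
            split_ifs <;> simp
          · intro j _ hj
            rw [indicator_of_notMem (fun h => hj (by simpa [hB] using h.symm)), zero_mul]
          · intro h
            exact absurd (Finset.mem_range.2 (Nat.lt_succ_of_le (hQ _ hw1))) h
        have h4 := hK2 _ hw1 _ hw2 h
        have h5 : ((w.1.2 - w.2.2) / ε) ^ 2 ≤ 1 := by
          rw [sq_le_one_iff_abs_le_one, abs_div, abs_of_pos hε, div_le_one hε]
          exact h4
        calc Real.exp (-(1 / 2)) * _ ≤ Real.exp (-(1 / 2)) * 1 :=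
              mul_le_mul_of_nonneg_left h3 (Real.exp_pos _).le
          _ = Real.exp (-(1 / 2)) := mul_one _
          _ ≤ _ := Real.exp_le_exp.2 (by linarith)
      · have h3 : ∑ j ∈ Finset.range (Q + 1),
            (B j).indicator (fun _ => (1 : ℝ)) w.1 * (B j).indicator (fun _ => (1 : ℝ)) w.2 = 0 := by
          refine Finset.sum_eq_zero fun j _ => ?_
          by_cases h4 : w.1 ∈ B j
          · have h5 : w.2 ∉ B j := fun h5 => h (h4.trans h5.symm)
            rw [indicator_of_notMem h5, mul_zero]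
          · rw [indicator_of_notMem h4, zero_mul]
        rw [h3, mul_zero]
        exact (Real.exp_pos _).le
  refine le_trans ?_ hmain
  rw [div_le_iff₀ (by positivity)]
  have := Real.exp_pos (-(1 / 2))
  nlinarith

/-- main deterministic estimate -/
lemma level_count {C ε : ℝ} (hε : 0 < ε)
    (hC : ∀ η : ℝ, 1 ≤ |η| → ‖phi μ η‖ ≤ C * |η| ^ (-(3 / 4) / 2 : ℝ))
    {K : Set (ℝ × ℝ)} (hK : μ Kᶜ = 0)
    {q : ℝ → ℕ} (hq : Measurable q) {Q : ℕ} (hQ : ∀ p ∈ K, q p.1 ≤ Q)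
    (hK2 : ∀ p ∈ K, ∀ p' ∈ K, q p.1 = q p'.1 → |p.2 - p'.2| ≤ ε) :
    Real.exp (-(1 / 2)) ≤ (max 1 (C ^ 2) * Ms) * ε ^ (3 / 4 : ℝ) * (Q + 1) := by
  have h1 := energy_lower hε hK hq hQ hK2
  rw [energy] at h1
  have h2 := h1.trans (energy_upper hε hC)
  rw [div_le_iff₀ (by positivity)] at h2
  linarith

end

end Run7.h240.St
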