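import Pool.Agent.Run7.h240.StProc
import Pool.Agent.Run7.h240.StFou

/-!
The range of the process over `[0, 1]` is covered by few short intervals.
-/

set_option autoImplicit false

open MeasureTheory ProbabilityTheory Set Filter Topology
open scoped NNReal ENNReal

namespace Run7.h240.St

/-- big jumps -/
def Bm (M : ℕ) : Set ℝ := Icc (-(M : ℝ)) M \ {0}

/-- small jumps -/
def Cm (M : ℕ) : Set ℝ := (Icc (-(M : ℝ)) M)ᶜ

lemma measurableSet_Bm (M : ℕ) : MeasurableSet (Bm M) :=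
  measurableSet_Icc.diff (measurableSet_singleton 0)

lemma measurableSet_Cm (M : ℕ) : MeasurableSet (Cm M) := measurableSet_Icc.compl

/-- counting function of big jumps in `(s, t]` -/
noncomputable def fD (M : ℕ) (s t : ℝ) : ℝ × ℝ → ℝ≥0∞ :=
  (Ioc s t ×ˢ Bm M).indicator (fun _ => 1)

/-- variation of small jumps in `(s, t]` -/
noncomputable def fW (M : ℕ) (s t : ℝ) : ℝ × ℝ → ℝ≥0∞ :=
  (Ioc s t ×ˢ Cm M).indicator (fun u => ENNReal.ofReal |J u.2|)

lemma measurable_fD (M : ℕ) (s t : ℝ) : Measurable (fD M s t) :=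
  measurable_const.indicator (measurableSet_Ioc.prod (measurableSet_Bm M))

lemma measurable_fW (M : ℕ) (s t : ℝ) : Measurable (fW M s t) := by
  refine Measurable.indicator ?_ (measurableSet_Ioc.prod (measurableSet_Cm M))
  have := measurable_J
  fun_prop

lemma LE_add (f g : ℝ × ℝ → ℝ≥0∞) (ω : Om) : LE (fun u => f u + g u) ω = LE f ω + LE g ω := by
  unfold LE sE
  rw [← ENNReal.tsum_add]
  refine tsum_congr fun p => ?_
  rw [Finset.sum_add_distrib]

lemma fD_add (M : ℕ) {s t : ℝ} (hs : 0 ≤ s) (hst : s ≤ t) (ω : Om) :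
    LE (fD M 0 t) ω = LE (fD M 0 s) ω + LE (fD M s t) ω := by
  rw [← LE_add]
  congr 1
  funext u
  unfold fD
  rw [← Ioc_union_Ioc_eq_Ioc hs hst, union_prod, indicator_union_of_disjoint]
  rw [Set.disjoint_left]
  rintro x ⟨h1, _⟩ ⟨h2, _⟩
  exact absurd h2.1 (not_lt.2 h1.2)

lemma fW_add (M : ℕ) {s t : ℝ} (hs : 0 ≤ s) (hst : s ≤ t) (ω : Om) :
    LE (fW M 0 t) ω = LE (fW M 0 s) ω + LE (fW M s t) ω := by
  rw [← LE_add]
  congr 1
  funext u
  unfold fW
  rw [← Ioc_union_Ioc_eq_Ioc hs hst, union_prod, indicator_union_of_disjoint]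
  rw [Set.disjoint_left]
  rintro x ⟨h1, _⟩ ⟨h2, _⟩
  exact absurd h2.1 (not_lt.2 h1.2)

lemma LE_eq_zero_of_lt_one {A : Set (ℝ × ℝ)} {h : ℝ × ℝ → ℝ≥0∞} {ω : Om}
    (h1 : LE (A.indicator (fun _ => 1)) ω < 1) : LE (A.indicator h) ω = 0 := by
  have hno : ∀ p, ∀ i ∈ Finset.range (ω p).1, (ω p).2 i ∉ A := by
    intro p i hi hA
    have h2 : (1 : ℝ≥0∞) ≤ sE (A.indicator (fun _ => 1)) (ω p) := by
      unfold sE
      have h3 := Finset.single_le_sum (f := fun i => A.indicator (fun _ => (1 : ℝ≥0∞)) ((ω p).2 i))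
        (fun _ _ => zero_le) hi
      rw [indicator_of_mem hA] at h3
      exact h3
    have h3 : sE (A.indicator (fun _ => 1)) (ω p) ≤ LE (A.indicator (fun _ => 1)) ω :=
      ENNReal.le_tsum p
    exact absurd (h2.trans h3) (not_le.2 h1)
  unfold LE
  rw [ENNReal.tsum_eq_zero]
  intro p
  unfold sE
  refine Finset.sum_eq_zero fun i hi => ?_
  rw [indicator_of_notMem (hno p i hi)]

lemma fW_le (M : ℕ) (t : ℝ) (u : ℝ × ℝ) : fW M 0 t u ≤ af t u := by
  unfold fW af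
  by_cases h : u ∈ Ioc (0 : ℝ) t ×ˢ Cm M
  · rw [indicator_of_mem h, abs_ff, indicator_of_mem h.1, one_mul]
  · rw [indicator_of_notMem h]; exact zero_le

lemma fD_le (M : ℕ) (t : ℝ) (u : ℝ × ℝ) : fD M 0 t u ≤ ENNReal.ofReal (κ ^ 2 * M ^ 2) * af t u := by
  unfold fD af
  by_cases h : u ∈ Ioc (0 : ℝ) t ×ˢ Bm M
  · rw [indicator_of_mem h, abs_ff, indicator_of_mem h.1, one_mul, ← ENNReal.ofReal_mul (by positivity)]
    rw [ENNReal.one_le_ofReal, abs_J]
    have hκ := κ_pos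
    have h2 : u.2 ≠ 0 := h.2.2
    have h3 : |u.2| ≤ M := abs_le.2 h.2.1
    have h4 : u.2 ^ 2 ≤ (M : ℝ) ^ 2 := by
      rw [← sq_abs]
      exact pow_le_pow_left₀ (abs_nonneg _) h3 2
    have h5 : 0 < u.2 ^ 2 := by positivity
    have e : κ ^ 2 * (M : ℝ) ^ 2 * (1 / κ ^ 2 * (1 / u.2 ^ 2)) = (M : ℝ) ^ 2 / u.2 ^ 2 := by
      field_simp
    rw [e, le_div_iff₀ h5, one_mul]
    exact h4
  · rw [indicator_of_notMem h]; exact zero_le

lemma fD_fin {ω : Om} (hω : ω ∈ G) (M : ℕ) (t : ℝ) : LE (fD M 0 t) ω < ∞ := by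
  refine lt_of_le_of_lt (LE_mono (fD_le M t) ω) ?_
  rw [LE_const_mul]
  exact ENNReal.mul_lt_top ENNReal.ofReal_lt_top (LE_lt_top hω t)

lemma fW_fin {ω : Om} (hω : ω ∈ G) (M : ℕ) (t : ℝ) : LE (fW M 0 t) ω < ∞ :=
  lt_of_le_of_lt (LE_mono (fW_le M t) ω) (LE_lt_top hω t)

lemma fD_mono (M : ℕ) {s t : ℝ} (h : s ≤ t) (ω : Om) : LE (fD M 0 s) ω ≤ LE (fD M 0 t) ω := by
  refine LE_mono (fun u => ?_) ω
  exact indicator_le_indicator_of_subset (prod_mono_left (Ioc_subset_Ioc_right h)) (fun _ => zero_le) u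

lemma fW_mono (M : ℕ) {s t : ℝ} (h : s ≤ t) (ω : Om) : LE (fW M 0 s) ω ≤ LE (fW M 0 t) ω := by
  refine LE_mono (fun u => ?_) ω
  exact indicator_le_indicator_of_subset (prod_mono_left (Ioc_subset_Ioc_right h)) (fun _ => zero_le) u

lemma abs_L_le {g : ℝ × ℝ → ℝ} {ω : Om} (h : LE (fun u => ENNReal.ofReal |g u|) ω < ∞) :
    |L g ω| ≤ (LE (fun u => ENNReal.ofReal |g u|) ω).toReal := by
  unfold L LE at *
  rw [ENNReal.tsum_toReal_eq (fun p => (sE_lt_top (g := g) (ω p)).ne)]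
  rw [← Real.norm_eq_abs]
  refine tsum_of_norm_bounded (ENNReal.summable_toReal h.ne).hasSum (fun p => ?_)
  rw [Real.norm_eq_abs]
  exact abs_sB_le g (ω p)

/-- increments are controlled by the two counting functions -/
lemma incr_le {ω : Om} (hω : ω ∈ G) (M : ℕ) {s t : ℝ} (hs : 0 ≤ s) (hst : s ≤ t)
    (h1 : LE (fD M s t) ω < 1) : |X t ω - X s ω| ≤ (LE (fW M s t) ω).toReal := by
  have hm : Monotone (![s, t] : Fin 2 → ℝ) := by
    intro i j hij
    fin_cases i <;> fin_cases j <;> simp_all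
  have h0 : (0 : ℝ) ≤ (![s, t] : Fin 2 → ℝ) 0 := by simpa using hs
  have h2 := L_gg hm h0 ![1] hω
  have h3 := LE_gg hm h0 ![1] hω
  have h4 := abs_L_le h3
  rw [h2] at h4
  have h5 : (∑ j : Fin 1, (![1] : Fin 1 → ℝ) j * (X ((![s, t] : Fin 2 → ℝ) j.succ) ω -
      X ((![s, t] : Fin 2 → ℝ) j.castSucc) ω)) = X t ω - X s ω := by simp
  rw [h5] at h4
  refine h4.trans ?_
  have h6 : LE (fW M s t) ω < ∞ := by
    have := fW_add M hs hst ω
    exact lt_of_le_of_lt (by rw [this]; exact le_add_self) (fW_fin hω M t)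
  refine ENNReal.toReal_mono h6.ne ?_
  have h7 : LE ((Ioc s t ×ˢ Bm M).indicator (fun u => ENNReal.ofReal |J u.2|)) ω = 0 :=
    LE_eq_zero_of_lt_one h1
  calc LE (fun u => ENNReal.ofReal |gg ![s, t] ![1] u|) ω
      ≤ LE (fun u => (Ioc s t ×ˢ Bm M).indicator (fun u => ENNReal.ofReal |J u.2|) u + fW M s t u) ω := by
        refine LE_mono (fun u => ?_) ω
        unfold fW gg
        simp only [Fin.sum_univ_succ, Finset.univ_eq_empty, Finset.sum_empty, add_zero]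
        simp only [Matrix.cons_val_zero, one_mul, Fin.castSucc_zero, Fin.succ_zero_eq_one,
          Matrix.cons_val_one]
        by_cases a1 : u.1 ∈ Ioc s t
        · rw [indicator_of_mem a1, one_mul]
          by_cases a2 : u.2 ∈ Bm M
          · have hmem : u ∈ Ioc s t ×ˢ Bm M := mk_mem_prod a1 a2
            rw [indicator_of_mem hmem]
            exact le_self_add
          · by_cases a3 : u.2 ∈ Cm M
            · have hmem : u ∈ Ioc s t ×ˢ Cm M := mk_mem_prod a1 a3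
              rw [indicator_of_mem hmem]
              exact le_add_self
            · have a4 : u.2 = 0 := by
                by_contra hne
                apply a2
                unfold Cm at a3
                rw [Set.notMem_compl_iff] at a3
                exact ⟨a3, hne⟩
              rw [a4]
              have : J 0 = 0 := by unfold J J0; simp
              rw [this]
              simp
        · rw [indicator_of_notMem a1, zero_mul]
          simp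
    _ = LE (fW M s t) ω := by rw [LE_add, h7, zero_add]

/-- level function -/
noncomputable def qq (M : ℕ) (ω : Om) (t : ℝ) : ℕ :=
  ⌊(LE (fD M 0 t) ω).toReal⌋₊ + ⌊(M : ℝ) ^ 2 * (LE (fW M 0 t) ω).toReal⌋₊

lemma qq_mono_aux {ω : Om} (hω : ω ∈ G) (M : ℕ) {s t : ℝ} (h : s ≤ t) :
    ⌊(LE (fD M 0 s) ω).toReal⌋₊ ≤ ⌊(LE (fD M 0 t) ω).toReal⌋₊ ∧
    ⌊(M : ℝ) ^ 2 * (LE (fW M 0 s) ω).toReal⌋₊ ≤ ⌊(M : ℝ) ^ 2 * (LE (fW M 0 t) ω).toReal⌋₊ := by
  constructor
  · exact Nat.floor_le_floor (ENNReal.toReal_mono (fD_fin hω M t).ne (fD_mono M h ω))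
  · exact Nat.floor_le_floor (mul_le_mul_of_nonneg_left
      (ENNReal.toReal_mono (fW_fin hω M t).ne (fW_mono M h ω)) (by positivity))

lemma qq_mono {ω : Om} (hω : ω ∈ G) (M : ℕ) : Monotone (qq M ω) := by
  intro s t h
  have := qq_mono_aux hω M h
  unfold qq
  omega

lemma qq_close {ω : Om} (hω : ω ∈ G) {M : ℕ} (hM : 1 ≤ M) {s t : ℝ} (hs : 0 ≤ s) (hst : s ≤ t)
    (h : qq M ω s = qq M ω t) : |X t ω - X s ω| ≤ 1 / (M : ℝ) ^ 2 := by
  obtain ⟨h1, h2⟩ := qq_mono_aux hω M hst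
  unfold qq at h
  have e1 : ⌊(LE (fD M 0 s) ω).toReal⌋₊ = ⌊(LE (fD M 0 t) ω).toReal⌋₊ := by omega
  have e2 : ⌊(M : ℝ) ^ 2 * (LE (fW M 0 s) ω).toReal⌋₊ = ⌊(M : ℝ) ^ 2 * (LE (fW M 0 t) ω).toReal⌋₊ := by
    omega
  have hM0 : (0 : ℝ) < (M : ℝ) ^ 2 := by
    have : (0 : ℝ) < M := by exact_mod_cast hM
    positivity
  have fin1 : LE (fD M s t) ω < ∞ := by
    have := fD_add M hs hst ω
    exact lt_of_le_of_lt (by rw [this]; exact le_add_self) (fD_fin hω M t)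
  have fin2 : LE (fW M s t) ω < ∞ := by
    have := fW_add M hs hst ω
    exact lt_of_le_of_lt (by rw [this]; exact le_add_self) (fW_fin hω M t)
  have a1 : (LE (fD M 0 t) ω).toReal = (LE (fD M 0 s) ω).toReal + (LE (fD M s t) ω).toReal := by
    rw [fD_add M hs hst ω, ENNReal.toReal_add (fD_fin hω M s).ne fin1.ne]
  have a2 : (LE (fW M 0 t) ω).toReal = (LE (fW M 0 s) ω).toReal + (LE (fW M s t) ω).toReal := by
    rw [fW_add M hs hst ω, ENNReal.toReal_add (fW_fin hω M s).ne fin2.ne]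
  have b1 : (LE (fD M s t) ω).toReal < 1 := by
    have c1 := Nat.lt_floor_add_one (LE (fD M 0 t) ω).toReal
    have c2 := Nat.floor_le (a := (LE (fD M 0 s) ω).toReal) ENNReal.toReal_nonneg
    rw [← e1] at c1
    linarith
  have b2 : (M : ℝ) ^ 2 * (LE (fW M s t) ω).toReal < 1 := by
    have c1 := Nat.lt_floor_add_one ((M : ℝ) ^ 2 * (LE (fW M 0 t) ω).toReal)
    have c2 := Nat.floor_le (a := (M : ℝ) ^ 2 * (LE (fW M 0 s) ω).toReal)
      (mul_nonneg hM0.le ENNReal.toReal_nonneg)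
    rw [← e2] at c1
    nlinarith
  have b3 : LE (fD M s t) ω < 1 := by
    rw [← ENNReal.toReal_lt_toReal fin1.ne ENNReal.one_ne_top]
    simpa using b1
  refine (incr_le hω M hs hst b3).trans ?_
  rw [le_div_iff₀ hM0]
  linarith

/-- upper bound for the number of levels -/
noncomputable def RR (M : ℕ) (ω : Om) : ℝ≥0∞ :=
  LE (fD M 0 1) ω + ENNReal.ofReal ((M : ℝ) ^ 2) * LE (fW M 0 1) ω + 1

lemma measurable_RR (M : ℕ) : Measurable (RR M) := by
  unfold RR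
  exact ((measurable_LE (measurable_fD M 0 1)).add ((measurable_LE (measurable_fW M 0 1)).const_mul _)).add_const _

lemma qq_le_RR {ω : Om} (hω : ω ∈ G) (M : ℕ) : ((qq M ω 1 : ℝ) + 1) ≤ (RR M ω).toReal := by
  unfold qq RR
  have f1 := fD_fin hω M 1
  have f2 := fW_fin hω M 1
  have f3 : ENNReal.ofReal ((M : ℝ) ^ 2) * LE (fW M 0 1) ω < ∞ := ENNReal.mul_lt_top ENNReal.ofReal_lt_top f2
  rw [ENNReal.toReal_add (ENNReal.add_lt_top.2 ⟨f1, f3⟩).ne ENNReal.one_ne_top,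
    ENNReal.toReal_add f1.ne f3.ne, ENNReal.toReal_mul, ENNReal.toReal_ofReal (by positivity),
    ENNReal.toReal_one]
  push_cast
  have c1 := Nat.floor_le (a := (LE (fD M 0 1) ω).toReal) ENNReal.toReal_nonneg
  have c2 := Nat.floor_le (a := (M : ℝ) ^ 2 * (LE (fW M 0 1) ω).toReal)
      (mul_nonneg (by positivity) ENNReal.toReal_nonneg)
  linarith

/-- the constant -/
noncomputable def cc : ℝ := 1 / κ ^ 2

lemma cc_pos : 0 < cc := by unfold cc; have := κ_pos; positivity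

lemma lintegral_Ioi_J {M : ℕ} (hM : 1 ≤ M) :
    ∫⁻ v in Ioi (M : ℝ), ENNReal.ofReal |J v| = ENNReal.ofReal (cc / M) := by
  have hM0 : (0 : ℝ) < M := by exact_mod_cast hM
  have hc := cc_pos
  have h1 : ∀ v ∈ Ioi (M : ℝ), |J v| = cc * v ^ (-2 : ℝ) := by
    intro v hv
    have hv0 : 0 < v := hM0.trans hv
    rw [abs_J, Real.rpow_neg hv0.le]
    unfold cc
    have : v ^ (2 : ℝ) = v ^ 2 := by exact_mod_cast Real.rpow_natCast v 2
    rw [this]
    ring
  have h2 : IntegrableOn (fun v : ℝ => cc * v ^ (-2 : ℝ)) (Ioi (M : ℝ)) :=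
    (integrableOn_Ioi_rpow_of_lt (by norm_num) hM0).const_mul _
  rw [setLIntegral_congr_fun measurableSet_Ioi (fun v hv => by rw [h1 v hv])]
  rw [← ofReal_integral_eq_lintegral_ofReal h2]
  · rw [integral_const_mul, integral_Ioi_rpow_of_lt (by norm_num) hM0]
    congr 1
    have : (-2 + 1 : ℝ) = -1 := by norm_num
    rw [this, Real.rpow_neg_one]
    ring
  · refine (ae_restrict_iff' measurableSet_Ioi).2 (ae_of_all _ fun v hv => ?_)
    have hv0 : (0 : ℝ) < v := hM0.trans hv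
    simp only [Pi.zero_apply]
    positivity

lemma lintegral_Iio_J {M : ℕ} (hM : 1 ≤ M) :
    ∫⁻ v in Iio (-(M : ℝ)), ENNReal.ofReal |J v| = ENNReal.ofReal (cc / M) := by
  rw [← lintegral_Ioi_J hM]
  have hmp : MeasurePreserving (Neg.neg : ℝ → ℝ) volume volume := Measure.measurePreserving_neg volume
  have hme : MeasurableEmbedding (Neg.neg : ℝ → ℝ) := (MeasurableEquiv.neg ℝ).measurableEmbedding
  have h := hmp.setLIntegral_comp_preimage_emb hme (fun v => ENNReal.ofReal |J v|) (Iio (-(M : ℝ)))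
  rw [← h]
  have e : (Neg.neg : ℝ → ℝ) ⁻¹' Iio (-(M : ℝ)) = Ioi (M : ℝ) := by
    ext x; simp
  rw [e]
  refine setLIntegral_congr_fun measurableSet_Ioi (fun v _ => ?_)
  simp only [J_neg, abs_neg]

lemma lintegral_Cm {M : ℕ} (hM : 1 ≤ M) :
    ∫⁻ v in Cm M, ENNReal.ofReal |J v| ≤ ENNReal.ofReal (2 * cc / M) := by
  have e : Cm M ⊆ Iio (-(M : ℝ)) ∪ Ioi (M : ℝ) := by
    intro v hv
    unfold Cm at hv
    rw [mem_compl_iff, mem_Icc, not_and_or] at hv
    rcases hv with h | h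
    · exact Or.inl (not_le.1 h)
    · exact Or.inr (not_le.1 h)
  have hM0 : (0 : ℝ) < M := by exact_mod_cast hM
  have hc := cc_pos
  calc ∫⁻ v in Cm M, ENNReal.ofReal |J v| ≤ ∫⁻ v in Iio (-(M : ℝ)) ∪ Ioi (M : ℝ), ENNReal.ofReal |J v| :=
        lintegral_mono_set e
    _ ≤ (∫⁻ v in Iio (-(M : ℝ)), ENNReal.ofReal |J v|) + ∫⁻ v in Ioi (M : ℝ), ENNReal.ofReal |J v| :=
        lintegral_union_le _ _ _
    _ = ENNReal.ofReal (2 * cc / M) := by
        rw [lintegral_Ioi_J hM, lintegral_Iio_J hM, ← ENNReal.ofReal_add (by positivity) (by positivity)]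
        congr 1
        ring

lemma mean_RR {M : ℕ} (hM : 1 ≤ M) : ∫⁻ ω, RR M ω ∂PP ≤ ENNReal.ofReal ((3 + 2 * cc) * M) := by
  have hM0 : (0 : ℝ) < M := by exact_mod_cast hM
  have hM1 : (1 : ℝ) ≤ M := by exact_mod_cast hM
  have hc := cc_pos
  have hvol1 : (volume.restrict (Ioi (0 : ℝ))) (Ioc 0 1) ≤ 1 := by
    refine (Measure.restrict_apply_le _ _).trans ?_
    rw [Real.volume_Ioc]; simp
  have h1 : ∫⁻ ω, LE (fD M 0 1) ω ∂PP ≤ ENNReal.ofReal (2 * M) := by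
    rw [campbell (measurable_fD M 0 1), restrict_UU]
    unfold fD
    rw [lintegral_indicator (measurableSet_Ioc.prod (measurableSet_Bm M)), setLIntegral_one,
      Measure.prod_prod]
    calc (volume.restrict (Ioi (0 : ℝ))) (Ioc 0 1) * volume (Bm M)
        ≤ 1 * volume (Icc (-(M : ℝ)) M) := mul_le_mul' hvol1 (measure_mono sdiff_subset)
      _ = ENNReal.ofReal (2 * M) := by
          rw [Real.volume_Icc, one_mul]; congr 1; ring
  have h2 : ∫⁻ ω, LE (fW M 0 1) ω ∂PP ≤ ENNReal.ofReal (2 * cc / M) := by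
    rw [campbell (measurable_fW M 0 1), restrict_UU]
    have e : fW M 0 1 = fun u => (Ioc (0 : ℝ) 1).indicator (fun _ => (1 : ℝ≥0∞)) u.1 *
        (Cm M).indicator (fun v => ENNReal.ofReal |J v|) u.2 := by
      funext u
      unfold fW
      by_cases a1 : u.1 ∈ Ioc (0 : ℝ) 1
      · by_cases a2 : u.2 ∈ Cm M
        · have hmem : u ∈ Ioc (0 : ℝ) 1 ×ˢ Cm M := mk_mem_prod a1 a2
          rw [indicator_of_mem hmem, indicator_of_mem a1, indicator_of_mem a2, one_mul]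
        · have hmem : u ∉ Ioc (0 : ℝ) 1 ×ˢ Cm M := fun h => a2 (mem_prod.1 h).2
          rw [indicator_of_notMem hmem, indicator_of_notMem a2, mul_zero]
      · have hmem : u ∉ Ioc (0 : ℝ) 1 ×ˢ Cm M := fun h => a1 (mem_prod.1 h).1
        rw [indicator_of_notMem hmem, indicator_of_notMem a1, zero_mul]
    rw [e]
    have hJ : Measurable J := measurable_J
    rw [lintegral_prod_mul (f := (Ioc (0 : ℝ) 1).indicator (fun _ => (1 : ℝ≥0∞)))
      (g := (Cm M).indicator (fun v => ENNReal.ofReal |J v|))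
      (measurable_const.indicator measurableSet_Ioc).aemeasurable
      (Measurable.indicator (by fun_prop) (measurableSet_Cm M)).aemeasurable]
    rw [lintegral_indicator measurableSet_Ioc, setLIntegral_one, lintegral_indicator (measurableSet_Cm M)]
    calc _ ≤ 1 * ENNReal.ofReal (2 * cc / M) := mul_le_mul' hvol1 (lintegral_Cm hM)
      _ = _ := one_mul _
  unfold RR
  rw [lintegral_add_right _ measurable_const, lintegral_add_left (measurable_LE (measurable_fD M 0 1)),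
    lintegral_const_mul _ (measurable_LE (measurable_fW M 0 1))]
  rw [lintegral_const, measure_univ, mul_one]
  calc _ ≤ ENNReal.ofReal (2 * M) + ENNReal.ofReal ((M : ℝ) ^ 2) * ENNReal.ofReal (2 * cc / M) + 1 := by
        gcongr
    _ = ENNReal.ofReal (2 * M + (M : ℝ) ^ 2 * (2 * cc / M) + 1) := by
        rw [← ENNReal.ofReal_mul (by positivity), ENNReal.ofReal_add (by positivity) (by norm_num),
          ENNReal.ofReal_add (by positivity) (by positivity), ENNReal.ofReal_one]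
    _ ≤ _ := by
        apply ENNReal.ofReal_le_ofReal
        have : (M : ℝ) ^ 2 * (2 * cc / M) = 2 * cc * M := by field_simp
        rw [this]
        nlinarith

/-- for each `k` the number of levels is, for some `M`, below `M^(3/2) / k`. -/
lemma ae_few (k : ℕ) (hk : 1 ≤ k) :
    ∀ᵐ ω ∂PP, ∃ M : ℕ, 1 ≤ M ∧ RR M ω < ENNReal.ofReal ((M : ℝ) ^ (3 / 2 : ℝ) / k) := by
  have hk0 : (0 : ℝ) < k := by exact_mod_cast hk
  have hc := cc_pos
  rw [ae_iff]
  set S : Set Om := {ω | ¬ ∃ M : ℕ, 1 ≤ M ∧ RR M ω < ENNReal.ofReal ((M : ℝ) ^ (3 / 2 : ℝ) / k)} with hS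
  have h1 : ∀ M : ℕ, 1 ≤ M → PP S ≤ ENNReal.ofReal ((3 + 2 * cc) * k * (M : ℝ) ^ (-(1 / 2) : ℝ)) := by
    intro M hM
    have hM0 : (0 : ℝ) < M := by exact_mod_cast hM
    have hpos : 0 < (M : ℝ) ^ (3 / 2 : ℝ) / k := by positivity
    have h2 : S ⊆ {ω | ENNReal.ofReal ((M : ℝ) ^ (3 / 2 : ℝ) / k) ≤ RR M ω} := by
      intro ω hω
      by_contra h
      exact hω ⟨M, hM, not_le.1 h⟩
    have h3 := mul_meas_ge_le_lintegral (μ := PP) (measurable_RR M) (ENNReal.ofReal ((M : ℝ) ^ (3 / 2 : ℝ) / k))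
    have h4 : ENNReal.ofReal ((M : ℝ) ^ (3 / 2 : ℝ) / k) * PP S ≤ ENNReal.ofReal ((3 + 2 * cc) * M) :=
      (mul_le_mul_right (measure_mono h2) _).trans (h3.trans (mean_RR hM))
    have h5 : PP S ≤ ENNReal.ofReal ((3 + 2 * cc) * M) / ENNReal.ofReal ((M : ℝ) ^ (3 / 2 : ℝ) / k) := by
      rw [ENNReal.le_div_iff_mul_le (Or.inl (ENNReal.ofReal_pos.2 hpos).ne') (Or.inl ENNReal.ofReal_ne_top)]
      rw [mul_comm]; exact h4
    refine h5.trans (le_of_eq ?_)
    rw [← ENNReal.ofReal_div_of_pos hpos]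
    congr 1
    have e : (M : ℝ) ^ (3 / 2 : ℝ) = M * (M : ℝ) ^ (1 / 2 : ℝ) := by
      rw [show (3 / 2 : ℝ) = 1 + 1 / 2 by norm_num, Real.rpow_add hM0, Real.rpow_one]
    rw [e, Real.rpow_neg hM0.le]
    field_simp
  have h2 : Tendsto (fun M : ℕ => ENNReal.ofReal ((3 + 2 * cc) * k * (M : ℝ) ^ (-(1 / 2) : ℝ))) atTop (𝓝 0) := by
    rw [← ENNReal.ofReal_zero]
    refine ENNReal.tendsto_ofReal ?_
    have h3 : Tendsto (fun M : ℕ => (M : ℝ) ^ (-(1 / 2) : ℝ)) atTop (𝓝 0) :=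
      (tendsto_rpow_neg_atTop (by norm_num : (0 : ℝ) < 1 / 2)).comp tendsto_natCast_atTop_atTop
    simpa using h3.const_mul ((3 + 2 * cc) * k)
  have h3 : PP S ≤ 0 := by
    refine ge_of_tendsto h2 ?_
    filter_upwards [eventually_ge_atTop 1] with M hM
    exact h1 M hM
  exact le_antisymm h3 zero_le

/-- almost surely the graph carries no measure with exponent `3/4`. -/
lemma no_measure : ∀ᵐ ω ∂PP, ¬ ∃ (μ : Measure (ℝ × ℝ)) (K : Set (ℝ × ℝ)),
    IsProbabilityMeasure μ ∧ IsCompact K ∧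
    K ⊆ {p : ℝ × ℝ | p.1 ∈ Set.Icc (0 : ℝ) 1 ∧ p.2 = X p.1 ω} ∧
    μ Kᶜ = 0 ∧
    ∃ C : ℝ, ∀ ξ : ℝ × ℝ, 1 ≤ ‖ξ‖ →
      ‖∫ p, Complex.exp (((ξ.1 * p.1 + ξ.2 * p.2 : ℝ) : ℂ) * Complex.I) ∂μ‖
        ≤ C * ‖ξ‖ ^ (-(3 / 4) / 2 : ℝ) := by
  have h1 : ∀ᵐ ω ∂PP, ∀ k : ℕ, 1 ≤ k →
      ∃ M : ℕ, 1 ≤ M ∧ RR M ω < ENNReal.ofReal ((M : ℝ) ^ (3 / 2 : ℝ) / k) := by
    rw [ae_all_iff]
    intro k
    by_cases hk : 1 ≤ k
    · filter_upwards [ae_few k hk] with ω hω _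
      exact hω
    · exact ae_of_all _ fun ω h => absurd h hk
  filter_upwards [h1, ae_G] with ω hω hG
  rintro ⟨μ, K, hμ, hKc, hKg, hK0, C, hC⟩
  have hphi : ∀ η : ℝ, 1 ≤ |η| → ‖phi μ η‖ ≤ C * |η| ^ (-(3 / 4) / 2 : ℝ) := by
    intro η hη
    have hn : ‖((0 : ℝ), η)‖ = |η| := by
      rw [Prod.norm_def]
      simp
    have := hC (0, η) (by rw [hn]; exact hη)
    rw [hn] at this
    simpa [phi] using this
  set A : ℝ := max 1 (C ^ 2) * Ms with hA
  have hA0 : 0 < A := mul_pos (lt_of_lt_of_le one_pos (le_max_left _ _)) Ms_pos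
  obtain ⟨k, hk⟩ := exists_nat_gt (A / Real.exp (-(1 / 2)))
  have he := Real.exp_pos (-(1 / 2))
  have hk0 : (0 : ℝ) < k := lt_trans (by positivity) hk
  obtain ⟨M, hM, hR⟩ := hω k (by
    have : 0 < k := by exact_mod_cast hk0
    omega)
  have hM0 : (0 : ℝ) < M := by exact_mod_cast hM
  have hε : (0 : ℝ) < 1 / (M : ℝ) ^ 2 := by positivity
  have hmain := level_count (μ := μ) (C := C) hε hphi hK0 (q := qq M ω) (qq_mono hG M).measurable
    (Q := qq M ω 1) (fun p hp => qq_mono hG M (hKg hp).1.2) (by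
      intro p hp p' hp' hq
      obtain ⟨⟨a1, a2⟩, a3⟩ := hKg hp
      obtain ⟨⟨b1, b2⟩, b3⟩ := hKg hp'
      rw [a3, b3]
      rcases le_total p.1 p'.1 with h | h
      · rw [abs_sub_comm]
        exact qq_close hG hM a1 h hq
      · exact qq_close hG hM b1 h hq.symm)
  have hq := qq_le_RR hG M
  have hRt : (RR M ω).toReal < (M : ℝ) ^ (3 / 2 : ℝ) / k := by
    have := (ENNReal.lt_ofReal_iff_toReal_lt hR.ne_top).1 hR
    exact this
  have e1 : (1 / (M : ℝ) ^ 2) ^ (3 / 4 : ℝ) = ((M : ℝ) ^ (3 / 2 : ℝ))⁻¹ := by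
    rw [one_div, Real.inv_rpow (by positivity), ← Real.rpow_natCast (M : ℝ) 2, ← Real.rpow_mul hM0.le]
    norm_num
  rw [← hA, e1] at hmain
  have hMp : 0 < (M : ℝ) ^ (3 / 2 : ℝ) := by positivity
  have h5 : A * ((M : ℝ) ^ (3 / 2 : ℝ))⁻¹ * ((qq M ω 1 : ℝ) + 1) ≤
      A * ((M : ℝ) ^ (3 / 2 : ℝ))⁻¹ * ((M : ℝ) ^ (3 / 2 : ℝ) / k) :=
    mul_le_mul_of_nonneg_left (hq.trans hRt.le) (by positivity)
  have h6 : A * ((M : ℝ) ^ (3 / 2 : ℝ))⁻¹ * ((M : ℝ) ^ (3 / 2 : ℝ) / k) = A / k := by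
    field_simp
  rw [h6] at h5
  have h7 : A / k < Real.exp (-(1 / 2)) := by
    rw [div_lt_iff₀ hk0]
    rw [div_lt_iff₀ he] at hk
    linarith
  linarith

end Run7.h240.St
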