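import Pool.Agent.Run7.h240.StBlock

/-!
The jump function `J v = c v / |v|^3` and the integrals which give the characteristic exponent
`|ξ|^(1/2)`.
-/

set_option autoImplicit false

open MeasureTheory ProbabilityTheory Set Filter Topology
open scoped NNReal ENNReal

namespace Run7.h240.St

/-- `sign v / v^2` -/
noncomputable def J0 (v : ℝ) : ℝ := v / |v| ^ 3

lemma measurable_J0 : Measurable J0 := by unfold J0; fun_prop

lemma abs_J0 (v : ℝ) : |J0 v| = 1 / v ^ 2 := by
  unfold J0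
  rcases eq_or_ne v 0 with h | h
  · subst h; simp
  · have h1 : 0 < |v| := abs_pos.2 h
    rw [abs_div, abs_pow, abs_abs, ← sq_abs v]
    field_simp

lemma J0_neg (v : ℝ) : J0 (-v) = -J0 v := by
  unfold J0; rw [abs_neg]; ring

lemma J0_mul {c : ℝ} (hc : 0 < c) (v : ℝ) : J0 (c * v) = J0 v / c ^ 2 := by
  unfold J0
  rw [abs_mul, abs_of_pos hc]
  rcases eq_or_ne v 0 with h | h
  · subst h; simp
  · have h1 : 0 < |v| := abs_pos.2 h
    field_simp

lemma integrable_min (c : ℝ) (hc : 0 ≤ c) : Integrable (fun v : ℝ => min 1 (c * |J0 v|)) := by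
  have h1 : Integrable (fun v : ℝ => 2 * (1 + c) * (1 + v ^ 2)⁻¹) :=
    integrable_inv_one_add_sq.const_mul _
  refine h1.mono' (by have := measurable_J0; fun_prop) (ae_of_all _ fun v => ?_)
  have h0 : 0 ≤ min 1 (c * |J0 v|) := le_min zero_le_one (mul_nonneg hc (abs_nonneg _))
  rw [Real.norm_eq_abs, abs_of_nonneg h0, abs_J0]
  have h2 : (0 : ℝ) < 1 + v ^ 2 := by positivity
  rw [← div_eq_mul_inv, le_div_iff₀ h2]
  rcases le_total (v ^ 2) 1 with h | h
  · have : min 1 (c * (1 / v ^ 2)) ≤ 1 := min_le_left _ _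
    have h3 : 0 ≤ min 1 (c * (1 / v ^ 2)) := le_min zero_le_one (by positivity)
    nlinarith
  · have h3 : min 1 (c * (1 / v ^ 2)) ≤ c * (1 / v ^ 2) := min_le_right _ _
    have h4 : (0 : ℝ) < v ^ 2 := by linarith
    have hv : v ≠ 0 := by
      rintro rfl
      simp at h4
    calc min 1 (c * (1 / v ^ 2)) * (1 + v ^ 2) ≤ c * (1 / v ^ 2) * (1 + v ^ 2) :=
          mul_le_mul_of_nonneg_right h3 h2.le
      _ ≤ c * (1 / v ^ 2) * (2 * v ^ 2) := by
          refine mul_le_mul_of_nonneg_left (by linarith) (by positivity)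
      _ = 2 * c := by field_simp
      _ ≤ 2 * (1 + c) := by linarith

lemma norm_exp_sub_one_le (x : ℝ) : ‖Complex.exp ((x : ℂ) * Complex.I) - 1‖ ≤ 2 * min 1 |x| := by
  rcases le_total 1 |x| with h | h
  · rw [min_eq_left h]
    calc ‖Complex.exp ((x : ℂ) * Complex.I) - 1‖ ≤ ‖Complex.exp ((x : ℂ) * Complex.I)‖ + ‖(1 : ℂ)‖ :=
          norm_sub_le _ _
      _ = 2 * 1 := by rw [Complex.norm_exp_ofReal_mul_I, norm_one]; norm_num
  · rw [min_eq_right h]
    have := Real.norm_exp_I_mul_ofReal_sub_one_le (x := x)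
    rw [mul_comm] at this
    rw [Real.norm_eq_abs] at this
    linarith [abs_nonneg x]

lemma integrable_exp (ξ c : ℝ) : Integrable (fun v : ℝ => Complex.exp (((ξ * (c * J0 v) : ℝ) : ℂ) * Complex.I) - 1) := by
  have h1 := (integrable_min (|ξ * c|) (abs_nonneg _)).const_mul 2
  refine h1.mono' (by have := measurable_J0; fun_prop) (ae_of_all _ fun v => ?_)
  refine (norm_exp_sub_one_le _).trans (le_of_eq ?_)
  congr 2
  rw [← abs_mul]
  congr 1
  ring

lemma integrable_cos (a : ℝ) : Integrable (fun v : ℝ => 1 - Real.cos (a * J0 v)) := by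
  have h := (integrable_exp a 1).re.neg
  refine h.congr (ae_of_all _ fun v => ?_)
  simp only [one_mul, Pi.neg_apply]
  rw [map_sub, RCLike.re_eq_complex_re, Complex.exp_ofReal_mul_I_re, Complex.one_re]
  ring

/-- normalising constant -/
noncomputable def κ : ℝ := ∫ v : ℝ, (1 - Real.cos (J0 v))

lemma κ_pos : 0 < κ := by
  have hi : Integrable (fun v : ℝ => 1 - Real.cos (J0 v)) := by simpa using integrable_cos 1
  have hn : 0 ≤ fun v : ℝ => 1 - Real.cos (J0 v) := fun v => by
    have := Real.cos_le_one (J0 v)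
    simp only [Pi.zero_apply]; linarith
  unfold κ
  rw [integral_pos_iff_support_of_nonneg hn hi]
  have h1 : Ioo (1 : ℝ) 2 ⊆ Function.support (fun v : ℝ => 1 - Real.cos (J0 v)) := by
    intro v hv
    rw [Function.mem_support]
    have hv0 : 0 < v := by linarith [hv.1]
    have hJ : J0 v = 1 / v ^ 2 := by
      have h2 := abs_J0 v
      rwa [abs_of_nonneg] at h2
      unfold J0; positivity
    have h3 : 0 < J0 v := by rw [hJ]; positivity
    have h4 : J0 v ≤ 1 := by
      rw [hJ, div_le_one (by positivity)]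
      nlinarith [hv.1]
    have h5 : Real.cos (J0 v) < 1 := by
      have := Real.cos_lt_cos_of_nonneg_of_le_pi (x := 0) (y := J0 v) le_rfl
        (by linarith [Real.pi_gt_three]) h3
      simpa using this
    intro h
    linarith
  refine lt_of_lt_of_le ?_ (measure_mono h1)
  rw [Real.volume_Ioo]
  norm_num

lemma integral_cos_pos {a : ℝ} (ha : 0 < a) : ∫ v : ℝ, (1 - Real.cos (a * J0 v)) = Real.sqrt a * κ := by
  have hs : 0 < Real.sqrt a := Real.sqrt_pos.2 ha
  have h := Measure.integral_comp_mul_left (fun v : ℝ => 1 - Real.cos (a * J0 v)) (Real.sqrt a)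
  have h1 : (fun v : ℝ => 1 - Real.cos (a * J0 (Real.sqrt a * v))) = fun v : ℝ => 1 - Real.cos (J0 v) := by
    funext v
    rw [J0_mul hs, Real.sq_sqrt ha.le]
    congr 2
    field_simp
  rw [h1] at h
  rw [show (∫ v : ℝ, (1 - Real.cos (J0 v))) = κ from rfl] at h
  rw [h, abs_of_pos (inv_pos.2 hs), smul_eq_mul, ← mul_assoc, mul_inv_cancel₀ hs.ne', one_mul]

/-- the jump function -/
noncomputable def J (v : ℝ) : ℝ := (1 / κ ^ 2) * J0 v

lemma measurable_J : Measurable J := by
  unfold J; exact measurable_J0.const_mul _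

lemma abs_J (v : ℝ) : |J v| = (1 / κ ^ 2) * (1 / v ^ 2) := by
  unfold J
  rw [abs_mul, abs_J0, abs_of_nonneg (by have := κ_pos; positivity)]

lemma J_neg (v : ℝ) : J (-v) = -J v := by unfold J; rw [J0_neg]; ring

lemma integral_cos_J (ξ : ℝ) : ∫ v : ℝ, (1 - Real.cos (ξ * J v)) = Real.sqrt |ξ| := by
  have hκ := κ_pos
  rcases eq_or_ne ξ 0 with h | h
  · subst h; simp
  · have h1 : 0 < |ξ| := abs_pos.2 h
    have h2 : (fun v : ℝ => 1 - Real.cos (ξ * J v)) = fun v : ℝ => 1 - Real.cos ((|ξ| / κ ^ 2) * J0 v) := by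
      funext v
      congr 1
      rcases abs_cases ξ with ⟨h3, _⟩ | ⟨h3, _⟩
      · rw [h3]; unfold J; congr 1; ring
      · rw [h3, ← Real.cos_neg]; unfold J; congr 1; ring
    rw [h2, integral_cos_pos (by positivity), Real.sqrt_div h1.le, Real.sqrt_sq hκ.le]
    field_simp

lemma integrable_exp_J (ξ : ℝ) : Integrable (fun v : ℝ => Complex.exp (((ξ * J v : ℝ) : ℂ) * Complex.I) - 1) :=
  integrable_exp ξ _

lemma integral_exp_J (ξ : ℝ) :
    ∫ v : ℝ, (Complex.exp (((ξ * J v : ℝ) : ℂ) * Complex.I) - 1) = ((-Real.sqrt |ξ| : ℝ) : ℂ) := by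
  have hi := integrable_exp_J ξ
  have h1 := integral_neg_eq_self (fun v : ℝ => Complex.exp (((ξ * J v : ℝ) : ℂ) * Complex.I) - 1) volume
  have h2 : Integrable (fun v : ℝ => Complex.exp (((ξ * J (-v) : ℝ) : ℂ) * Complex.I) - 1) := hi.comp_neg
  have h3 : (∫ v : ℝ, (Complex.exp (((ξ * J v : ℝ) : ℂ) * Complex.I) - 1)) +
      (∫ v : ℝ, (Complex.exp (((ξ * J (-v) : ℝ) : ℂ) * Complex.I) - 1)) =
      2 * ((-Real.sqrt |ξ| : ℝ) : ℂ) := by
    have e : ((-Real.sqrt |ξ| : ℝ) : ℂ) = ∫ v : ℝ, ((-(1 - Real.cos (ξ * J v)) : ℝ) : ℂ) := by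
      rw [integral_complex_ofReal, integral_neg, integral_cos_J]
    rw [← integral_add hi h2, e, ← integral_const_mul]
    refine integral_congr_ae (ae_of_all _ fun v => ?_)
    simp only
    rw [J_neg, mul_neg, Complex.ofReal_neg, neg_mul, Complex.ofReal_neg, Complex.ofReal_sub,
      Complex.ofReal_one, Complex.ofReal_cos, Complex.cos]
    ring_nf
  rw [h1] at h3
  linear_combination (1 / 2 : ℂ) * h3

/-- the intervals are disjoint -/
lemma ioc_unique {n : ℕ} {t : Fin (n + 1) → ℝ} (ht : Monotone t) {v : ℝ} {j l : Fin n}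
    (hj : v ∈ Ioc (t j.castSucc) (t j.succ)) (hl : v ∈ Ioc (t l.castSucc) (t l.succ)) : j = l := by
  rcases lt_trichotomy j l with h | h | h
  · have : j.succ ≤ l.castSucc := by
      rw [Fin.le_iff_val_le_val]; simp only [Fin.val_succ, Fin.val_castSucc]; omega
    have := ht this
    exact absurd (lt_of_lt_of_le hl.1 (hj.2.trans this)) (lt_irrefl _)
  · exact h
  · have : l.succ ≤ j.castSucc := by
      rw [Fin.le_iff_val_le_val]; simp only [Fin.val_succ, Fin.val_castSucc]; omega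
    have := ht this
    exact absurd (lt_of_lt_of_le hj.1 (hl.2.trans this)) (lt_irrefl _)

/-- the integrand for a linear combination of increments -/
noncomputable def gg {n : ℕ} (t : Fin (n + 1) → ℝ) (ξ : Fin n → ℝ) (u : ℝ × ℝ) : ℝ :=
  ∑ j, ξ j * ((Ioc (t j.castSucc) (t j.succ)).indicator (fun _ => (1 : ℝ)) u.1 * J u.2)

lemma measurable_gg {n : ℕ} (t : Fin (n + 1) → ℝ) (ξ : Fin n → ℝ) : Measurable (gg t ξ) := by
  unfold gg
  refine Finset.measurable_sum _ fun j _ => ?_
  refine Measurable.const_mul ?_ _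
  refine Measurable.mul ?_ (measurable_J.comp measurable_snd)
  exact (measurable_const.indicator measurableSet_Ioc).comp measurable_fst

lemma exp_gg {n : ℕ} {t : Fin (n + 1) → ℝ} (ht : Monotone t) (ξ : Fin n → ℝ) (u : ℝ × ℝ) :
    Complex.exp ((gg t ξ u : ℂ) * Complex.I) - 1 =
      ∑ j, (Ioc (t j.castSucc) (t j.succ)).indicator (fun _ => (1 : ℂ)) u.1 *
        (Complex.exp (((ξ j * J u.2 : ℝ) : ℂ) * Complex.I) - 1) := by
  by_cases h : ∃ j : Fin n, u.1 ∈ Ioc (t j.castSucc) (t j.succ)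
  · obtain ⟨j, hj⟩ := h
    have h1 : gg t ξ u = ξ j * J u.2 := by
      unfold gg
      rw [Finset.sum_eq_single j]
      · rw [indicator_of_mem hj, one_mul]
      · intro l _ hl
        rw [indicator_of_notMem (fun h => hl (ioc_unique ht h hj)), zero_mul, mul_zero]
      · intro h; exact absurd (Finset.mem_univ j) h
    rw [h1, Finset.sum_eq_single j]
    · rw [indicator_of_mem hj, one_mul]
    · intro l _ hl
      rw [indicator_of_notMem (fun h => hl (ioc_unique ht h hj)), zero_mul]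
    · intro h; exact absurd (Finset.mem_univ j) h
  · push Not at h
    have h1 : gg t ξ u = 0 := by
      unfold gg
      apply Finset.sum_eq_zero
      intro j _
      rw [indicator_of_notMem (h j), zero_mul, mul_zero]
    rw [h1, Finset.sum_eq_zero]
    · simp
    · intro j _
      rw [indicator_of_notMem (h j), zero_mul]

lemma restrict_UU : (volume : Measure (ℝ × ℝ)).restrict UU =
    ((volume : Measure ℝ).restrict (Ioi 0)).prod (volume : Measure ℝ) := by
  conv_rhs => rw [← Measure.restrict_univ (μ := (volume : Measure ℝ)), Measure.restrict_univ]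
  rw [UU, Measure.volume_eq_prod, ← Measure.prod_restrict, Measure.restrict_univ]

lemma integrable_term {a b : ℝ} (ξ : ℝ) :
    IntegrableOn (fun u : ℝ × ℝ => (Ioc a b).indicator (fun _ => (1 : ℂ)) u.1 *
        (Complex.exp (((ξ * J u.2 : ℝ) : ℂ) * Complex.I) - 1)) UU := by
  unfold IntegrableOn
  rw [restrict_UU]
  refine Integrable.mul_prod (f := (Ioc a b).indicator (fun _ => (1 : ℂ)))
    (g := fun v => Complex.exp (((ξ * J v : ℝ) : ℂ) * Complex.I) - 1) ?_ (integrable_exp_J ξ)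
  rw [integrable_indicator_iff measurableSet_Ioc]
  have : IsFiniteMeasure ((volume.restrict (Ioi (0 : ℝ))).restrict (Ioc a b)) := by
    refine ⟨?_⟩
    rw [Measure.restrict_apply_univ]
    exact lt_of_le_of_lt (Measure.restrict_apply_le _ _) (by rw [Real.volume_Ioc]; exact ENNReal.ofReal_lt_top)
  exact integrable_const _

lemma integral_term {a b : ℝ} (h0 : 0 ≤ a) (hab : a ≤ b) (ξ : ℝ) :
    ∫ u in UU, ((Ioc a b).indicator (fun _ => (1 : ℂ)) u.1 *
        (Complex.exp (((ξ * J u.2 : ℝ) : ℂ) * Complex.I) - 1)) =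
      ((-((b - a) * Real.sqrt |ξ|) : ℝ) : ℂ) := by
  rw [restrict_UU, integral_prod_mul ((Ioc a b).indicator (fun _ => (1 : ℂ)))
    (fun v => Complex.exp (((ξ * J v : ℝ) : ℂ) * Complex.I) - 1), integral_exp_J]
  rw [integral_indicator measurableSet_Ioc, Measure.restrict_restrict measurableSet_Ioc,
    (inter_eq_left.2 (Ioc_subset_Ioi_self.trans (Ioi_subset_Ioi h0)) :
      Ioc a b ∩ Ioi (0 : ℝ) = Ioc a b), setIntegral_const,
    Real.volume_real_Ioc_of_le hab]
  rw [Complex.real_smul, mul_one]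
  push_cast
  ring

lemma integrableOn_gg {n : ℕ} {t : Fin (n + 1) → ℝ} (ht : Monotone t) (ξ : Fin n → ℝ) :
    IntegrableOn (fun u => Complex.exp ((gg t ξ u : ℂ) * Complex.I) - 1) UU := by
  simp_rw [exp_gg ht]
  exact integrable_finsetSum _ fun j _ => integrable_term (ξ j)

lemma integral_gg {n : ℕ} {t : Fin (n + 1) → ℝ} (ht : Monotone t) (ht0 : 0 ≤ t 0) (ξ : Fin n → ℝ) :
    ∫ u in UU, (Complex.exp ((gg t ξ u : ℂ) * Complex.I) - 1) =
      ((-∑ j, (t j.succ - t j.castSucc) * Real.sqrt |ξ j| : ℝ) : ℂ) := by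
  simp_rw [exp_gg ht]
  rw [integral_finsetSum _ fun j _ => integrable_term (ξ j)]
  rw [← Finset.sum_neg_distrib, Complex.ofReal_sum]
  refine Finset.sum_congr rfl fun j _ => ?_
  exact integral_term (ht0.trans (ht (Fin.zero_le _))) (ht (Fin.castSucc_le_succ j)) (ξ j)

end Run7.h240.St
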