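import Pool.Agent.Run7.h240.StJump

/-!
The symmetric `1/2`-stable process.
-/

set_option autoImplicit false

open MeasureTheory ProbabilityTheory Set Filter Topology
open scoped NNReal ENNReal

namespace Run7.h240.St

/-- the integrand of `X t` -/
noncomputable def ff (t : ℝ) (u : ℝ × ℝ) : ℝ :=
  (Ioc (0 : ℝ) t).indicator (fun _ => (1 : ℝ)) u.1 * J u.2

lemma measurable_ff (t : ℝ) : Measurable (ff t) := by
  unfold ff
  refine Measurable.mul ?_ (measurable_J.comp measurable_snd)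
  exact (measurable_const.indicator measurableSet_Ioc).comp measurable_fst

lemma abs_ff (t : ℝ) (u : ℝ × ℝ) :
    |ff t u| = (Ioc (0 : ℝ) t).indicator (fun _ => (1 : ℝ)) u.1 * |J u.2| := by
  unfold ff
  rw [abs_mul, abs_of_nonneg]
  exact Set.indicator_nonneg (fun _ _ => zero_le_one) _

lemma abs_ff_mono {s t : ℝ} (h : s ≤ t) (u : ℝ × ℝ) : |ff s u| ≤ |ff t u| := by
  rw [abs_ff, abs_ff]
  refine mul_le_mul_of_nonneg_right ?_ (abs_nonneg _)
  exact Set.indicator_le_indicator_of_subset (Ioc_subset_Ioc_right h) (fun _ => zero_le_one) _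

/-- absolute version -/
noncomputable def af (t : ℝ) (u : ℝ × ℝ) : ℝ≥0∞ := ENNReal.ofReal |ff t u|

lemma measurable_af (t : ℝ) : Measurable (af t) := by
  have := measurable_ff t
  unfold af; fun_prop

lemma sE_mono {f g : ℝ × ℝ → ℝ≥0∞} (h : ∀ u, f u ≤ g u) (b : Blk) : sE f b ≤ sE g b :=
  Finset.sum_le_sum fun _ _ => h _

lemma LE_mono {f g : ℝ × ℝ → ℝ≥0∞} (h : ∀ u, f u ≤ g u) (ω : Om) : LE f ω ≤ LE g ω :=
  ENNReal.tsum_le_tsum fun p => sE_mono h (ω p)

lemma LE_const_mul (c : ℝ≥0∞) (f : ℝ × ℝ → ℝ≥0∞) (ω : Om) :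
    LE (fun u => c * f u) ω = c * LE f ω := by
  unfold LE sE
  rw [← ENNReal.tsum_mul_left]
  refine tsum_congr fun p => ?_
  rw [Finset.mul_sum]

/-- the good event -/
def G : Set Om := {ω | ∀ T : ℕ, LE (af T) ω < ∞}

lemma measurableSet_G : MeasurableSet G := by
  have : G = ⋂ T : ℕ, {ω | LE (af T) ω < ∞} := by
    ext ω; simp [G]
  rw [this]
  exact MeasurableSet.iInter fun T => measurableSet_lt (measurable_LE (measurable_af T)) measurable_const

lemma lintegral_min_J : ∫⁻ v : ℝ, ENNReal.ofReal (min 1 |J v|) < ∞ := by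
  have h := integrable_min (1 / κ ^ 2) (by positivity)
  have h1 : (fun v : ℝ => min 1 (1 / κ ^ 2 * |J0 v|)) = fun v : ℝ => min 1 |J v| := by
    funext v
    rw [abs_J, abs_J0]
  rw [h1] at h
  exact h.lintegral_lt_top

lemma lintegral_min_ff (T : ℝ) : ∫⁻ u in UU, ENNReal.ofReal (min 1 |ff T u|) < ∞ := by
  have h1 : ∀ u : ℝ × ℝ, ENNReal.ofReal (min 1 |ff T u|) =
      (Ioc (0 : ℝ) T).indicator (fun _ => (1 : ℝ≥0∞)) u.1 * ENNReal.ofReal (min 1 |J u.2|) := by
    intro u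
    rw [abs_ff]
    by_cases hu : u.1 ∈ Ioc (0 : ℝ) T
    · rw [indicator_of_mem hu, indicator_of_mem hu, one_mul, one_mul]
    · rw [indicator_of_notMem hu, indicator_of_notMem hu, zero_mul, zero_mul]
      simp
  simp_rw [h1]
  rw [restrict_UU]
  have hm : Measurable J := measurable_J
  rw [lintegral_prod_mul (f := (Ioc (0 : ℝ) T).indicator (fun _ => (1 : ℝ≥0∞)))
    (g := fun v => ENNReal.ofReal (min 1 |J v|))
    (measurable_const.indicator measurableSet_Ioc).aemeasurable (by fun_prop)]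
  refine ENNReal.mul_lt_top ?_ lintegral_min_J
  rw [lintegral_indicator measurableSet_Ioc, setLIntegral_one]
  exact lt_of_le_of_lt (Measure.restrict_apply_le _ _) (by rw [Real.volume_Ioc]; exact ENNReal.ofReal_lt_top)

lemma ae_G : ∀ᵐ ω ∂PP, ω ∈ G := by
  have h : ∀ᵐ ω ∂PP, ∀ T : ℕ, LE (af T) ω < ∞ := by
    rw [ae_all_iff]
    intro T
    exact ae_LE_lt_top (measurable_ff T) (lintegral_min_ff T)
  exact h

lemma LE_lt_top {ω : Om} (hω : ω ∈ G) (t : ℝ) : LE (af t) ω < ∞ := by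
  refine lt_of_le_of_lt (LE_mono (fun u => ?_) ω) (hω ⌈t⌉₊)
  exact ENNReal.ofReal_le_ofReal (abs_ff_mono (Nat.le_ceil t) u)

lemma summable_ff {ω : Om} (hω : ω ∈ G) (t : ℝ) : Summable fun p => sB (ff t) (ω p) :=
  summable_of_LE (LE_lt_top hω t)

/-- the process -/
noncomputable def X (t : ℝ) (ω : Om) : ℝ := G.indicator (fun ω => L (ff t) ω) ω

lemma measurable_X (t : ℝ) : Measurable (X t) := by
  unfold X L
  refine Measurable.indicator ?_ measurableSet_G
  exact Measurable.tsum fun p => (measurable_sB (measurable_ff t)).comp (measurable_pi_apply p)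

lemma X_eq {ω : Om} (hω : ω ∈ G) (t : ℝ) : X t ω = ∑' p, sB (ff t) (ω p) := by
  unfold X
  rw [indicator_of_mem hω]; rfl

lemma X_zero (ω : Om) : X 0 ω = 0 := by
  by_cases h : ω ∈ G
  · rw [X_eq h]
    have : ∀ p, sB (ff 0) (ω p) = 0 := by
      intro p
      unfold sB
      refine Finset.sum_eq_zero fun i _ => ?_
      simp [ff]
    simp [this]
  · unfold X; rw [indicator_of_notMem h]

lemma gg_eq {n : ℕ} {t : Fin (n + 1) → ℝ} (ht : Monotone t) (ht0 : 0 ≤ t 0) (ξ : Fin n → ℝ)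
    (u : ℝ × ℝ) : gg t ξ u = ∑ j, ξ j * (ff (t j.succ) u - ff (t j.castSucc) u) := by
  unfold gg ff
  refine Finset.sum_congr rfl fun j _ => ?_
  rw [← sub_mul]
  congr 2
  have h0 : 0 ≤ t j.castSucc := ht0.trans (ht (Fin.zero_le _))
  have h1 : t j.castSucc ≤ t j.succ := ht (Fin.castSucc_le_succ j)
  simp only [indicator, mem_Ioc]
  by_cases a1 : 0 < u.1
  · by_cases a2 : u.1 ≤ t j.castSucc
    · have a3 : u.1 ≤ t j.succ := a2.trans h1
      have a4 : ¬ t j.castSucc < u.1 := not_lt.2 a2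
      simp [a1, a2, a3, a4]
    · have a4 : t j.castSucc < u.1 := not_le.1 a2
      simp [a1, a2, a4]
  · have a4 : ¬ t j.castSucc < u.1 := fun h => a1 (lt_of_le_of_lt h0 h)
    simp [a1, a4]

lemma sB_gg {n : ℕ} {t : Fin (n + 1) → ℝ} (ht : Monotone t) (ht0 : 0 ≤ t 0) (ξ : Fin n → ℝ)
    (b : Blk) : sB (gg t ξ) b = ∑ j, ξ j * (sB (ff (t j.succ)) b - sB (ff (t j.castSucc)) b) := by
  unfold sB
  simp_rw [gg_eq ht ht0]
  rw [Finset.sum_comm]
  refine Finset.sum_congr rfl fun j _ => ?_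
  rw [← Finset.sum_sub_distrib, Finset.mul_sum]

lemma L_gg {n : ℕ} {t : Fin (n + 1) → ℝ} (ht : Monotone t) (ht0 : 0 ≤ t 0) (ξ : Fin n → ℝ)
    {ω : Om} (hω : ω ∈ G) : L (gg t ξ) ω = ∑ j, ξ j * (X (t j.succ) ω - X (t j.castSucc) ω) := by
  unfold L
  simp_rw [sB_gg ht ht0, X_eq hω]
  refine HasSum.tsum_eq ?_
  refine hasSum_sum fun j _ => ?_
  exact ((summable_ff hω _).hasSum.sub (summable_ff hω _).hasSum).mul_left _

lemma LE_gg {n : ℕ} {t : Fin (n + 1) → ℝ} (ht : Monotone t) (ht0 : 0 ≤ t 0) (ξ : Fin n → ℝ)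
    {ω : Om} (hω : ω ∈ G) : LE (fun u => ENNReal.ofReal |gg t ξ u|) ω < ∞ := by
  have h1 : ∀ u, ENNReal.ofReal |gg t ξ u| ≤ ENNReal.ofReal (∑ j, |ξ j|) * af (t (Fin.last n)) u := by
    intro u
    unfold af
    rw [← ENNReal.ofReal_mul (Finset.sum_nonneg fun _ _ => abs_nonneg _)]
    refine ENNReal.ofReal_le_ofReal ?_
    unfold gg
    refine (Finset.abs_sum_le_sum_abs _ _).trans ?_
    rw [Finset.sum_mul]
    refine Finset.sum_le_sum fun j _ => ?_
    rw [abs_mul]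
    refine mul_le_mul_of_nonneg_left ?_ (abs_nonneg _)
    rw [abs_ff, abs_mul, abs_of_nonneg (Set.indicator_nonneg (fun _ _ => zero_le_one) _)]
    refine mul_le_mul_of_nonneg_right ?_ (abs_nonneg _)
    refine Set.indicator_le_indicator_of_subset ?_ (fun _ => zero_le_one) _
    exact Ioc_subset_Ioc (ht0.trans (ht (Fin.zero_le _))) (ht (Fin.le_last _))
  refine lt_of_le_of_lt (LE_mono h1 ω) ?_
  rw [LE_const_mul]
  exact ENNReal.mul_lt_top ENNReal.ofReal_lt_top (LE_lt_top hω _)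

/-- joint characteristic function of the increments -/
lemma char_incr {n : ℕ} {t : Fin (n + 1) → ℝ} (ht : Monotone t) (ht0 : 0 ≤ t 0) (ξ : Fin n → ℝ) :
    ∫ ω, Complex.exp (((∑ j, ξ j * (X (t j.succ) ω - X (t j.castSucc) ω) : ℝ) : ℂ) * Complex.I) ∂PP =
      ∏ j, Complex.exp ((-((t j.succ - t j.castSucc) * Real.sqrt |ξ j|) : ℝ) : ℂ) := by
  have h1 := char_L (measurable_gg t ξ) (by
    filter_upwards [ae_G] with ω hω
    exact LE_gg ht ht0 ξ hω) (integrableOn_gg ht ξ)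
  rw [integral_gg ht ht0 ξ] at h1
  rw [← Complex.exp_sum, ← Complex.ofReal_sum, Finset.sum_neg_distrib, ← h1]
  refine integral_congr_ae ?_
  filter_upwards [ae_G] with ω hω
  rw [L_gg ht ht0 ξ hω]

lemma char_single {s t : ℝ} (hs : 0 ≤ s) (hst : s ≤ t) (ξ : ℝ) :
    ∫ ω, Complex.exp (((ξ * (X t ω - X s ω) : ℝ) : ℂ) * Complex.I) ∂PP =
      Complex.exp ((-((t - s) * Real.sqrt |ξ|) : ℝ) : ℂ) := by
  have hm : Monotone (![s, t] : Fin 2 → ℝ) := by
    intro i j hij
    fin_cases i <;> fin_cases j <;> simp_all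
  have h := char_incr (t := ![s, t]) hm (by simpa using hs) ![ξ]
  simpa using h

lemma indep_incr (n : ℕ) (t : Fin (n + 1) → ℝ) (ht0 : 0 ≤ t 0) (ht : StrictMono t) :
    iIndepFun (fun (i : Fin n) (ω : Om) => X (t i.succ) ω - X (t i.castSucc) ω) PP := by
  have hm : ∀ i : Fin n, Measurable (fun ω : Om => X (t i.succ) ω - X (t i.castSucc) ω) := fun i =>
    (measurable_X _).sub (measurable_X _)
  rw [iIndepFun_iff_charFun_pi (fun i => (hm i).aemeasurable)]
  intro ξ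
  rw [charFun_apply, integral_map]
  · have h1 := char_incr ht.monotone ht0 (fun j => ξ.ofLp j)
    have h2 : ∀ j : Fin n, charFun (PP.map (fun ω => X (t j.succ) ω - X (t j.castSucc) ω)) (ξ.ofLp j) =
        Complex.exp ((-((t j.succ - t j.castSucc) * Real.sqrt |ξ.ofLp j|) : ℝ) : ℂ) := by
      intro j
      rw [charFun_apply_real, integral_map (hm j).aemeasurable (by fun_prop)]
      rw [← char_single (ht0.trans (ht.monotone (Fin.zero_le _))) (ht.monotone (Fin.castSucc_le_succ j))]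
      congr with ω
      push_cast
      rfl
    rw [Finset.prod_congr rfl fun j _ => h2 j, ← h1]
    congr with ω
  · refine Measurable.aemeasurable ?_
    exact (WithLp.measurable_toLp 2 _).comp (measurable_pi_lambda _ hm)
  · fun_prop

/-- the limit from the left -/
noncomputable def fl (t : ℝ) (u : ℝ × ℝ) : ℝ :=
  (Ioo (0 : ℝ) t).indicator (fun _ => (1 : ℝ)) u.1 * J u.2

lemma ff_right (t : ℝ) (u : ℝ × ℝ) : ∀ᶠ s in 𝓝[≥] t, ff s u = ff t u := by
  by_cases h : u.1 ≤ t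
  · filter_upwards [self_mem_nhdsWithin] with s hs
    have hs' : t ≤ s := hs
    unfold ff
    congr 1
    simp only [indicator, mem_Ioc, h, h.trans hs']
  · have : ∀ᶠ s in 𝓝 t, s < u.1 := eventually_lt_nhds (not_le.1 h)
    filter_upwards [mem_nhdsWithin_of_mem_nhds this] with s hs
    unfold ff
    congr 1
    simp only [indicator, mem_Ioc, h, not_le.2 hs]

lemma ff_left (t : ℝ) (u : ℝ × ℝ) : ∀ᶠ s in 𝓝[<] t, ff s u = fl t u := by
  by_cases h : u.1 < t
  · have : ∀ᶠ s in 𝓝 t, u.1 < s := eventually_gt_nhds h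
    filter_upwards [mem_nhdsWithin_of_mem_nhds this] with s hs
    unfold ff fl
    congr 1
    simp only [indicator, mem_Ioc, mem_Ioo, h, hs.le]
  · filter_upwards [self_mem_nhdsWithin] with s hs
    have hs' : s < t := hs
    have h1 : ¬ u.1 ≤ s := fun h2 => h (lt_of_le_of_lt h2 hs')
    unfold ff fl
    congr 1
    simp only [indicator, mem_Ioc, mem_Ioo, h, h1]

lemma sB_eventually {F : Filter ℝ} {f : ℝ → ℝ × ℝ → ℝ} {g : ℝ × ℝ → ℝ}
    (h : ∀ u, ∀ᶠ s in F, f s u = g u) (b : Blk) : Tendsto (fun s => sB (f s) b) F (𝓝 (sB g b)) := by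
  have h1 : ∀ᶠ s in F, ∀ i ∈ Finset.range b.1, f s (b.2 i) = g (b.2 i) := by
    rw [Filter.eventually_all_finset]
    intro i _
    exact h (b.2 i)
  refine tendsto_const_nhds.congr' ?_
  filter_upwards [h1] with s hs
  unfold sB
  exact (Finset.sum_congr rfl hs).symm

lemma X_tendsto {ω : Om} (hω : ω ∈ G) {F : Filter ℝ} {g : ℝ × ℝ → ℝ} {T : ℝ}
    (hT : ∀ᶠ s in F, s ≤ T) (h : ∀ u, ∀ᶠ s in F, ff s u = g u) :
    Tendsto (fun s => X s ω) F (𝓝 (∑' p, sB g (ω p))) := by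
  simp_rw [X_eq hω]
  refine tendsto_tsum_of_dominated_convergence
    (bound := fun p => (sE (af T) (ω p)).toReal) (ENNReal.summable_toReal (LE_lt_top hω T).ne)
    (fun p => sB_eventually h (ω p)) ?_
  filter_upwards [hT] with s hs p
  rw [Real.norm_eq_abs]
  refine (abs_sB_le (ff s) (ω p)).trans ?_
  refine ENNReal.toReal_mono ?_ ?_
  · exact (sE_lt_top (g := ff T) (ω p)).ne
  · exact sE_mono (fun u => ENNReal.ofReal_le_ofReal (abs_ff_mono hs u)) (ω p)

lemma cadlag {ω : Om} (hω : ω ∈ G) (t : ℝ) :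
    ContinuousWithinAt (fun s => X s ω) (Ici t) t ∧
      ∃ l : ℝ, Tendsto (fun s => X s ω) (𝓝[<] t) (𝓝 l) := by
  constructor
  · unfold ContinuousWithinAt
    have h := X_tendsto hω (F := 𝓝[≥] t) (g := ff t) (T := t + 1)
      (by
        have : ∀ᶠ s in 𝓝 t, s ≤ t + 1 := (eventually_lt_nhds (by linarith)).mono fun s hs => hs.le
        exact mem_nhdsWithin_of_mem_nhds this)
      (fun u => ff_right t u)
    simp only
    rw [X_eq hω t]
    exact h
  · refine ⟨_, X_tendsto hω (F := 𝓝[<] t) (g := fl t) (T := t) ?_ (fun u => ff_left t u)⟩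
    filter_upwards [self_mem_nhdsWithin] with s hs
    exact (show s < t from hs).le

end Run7.h240.St
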